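import Pool.Graph.R_pool_sql_team_seeded_620a6dc7.H998_EK.Levy

/-!
# The Erdős–Kac theorem in residue classes and for squarefree numbers
-/

set_option autoImplicit false
set_option linter.all false

open scoped Classical

namespace Pool.Agent.H468.WM

open Finset Filter Topology
open Pool.Agent.H998_EK (Phi Phi_cont Phi_nonneg Phi_le_one box_lim FF Am Bq AddF)

/-- `log log N` -/
noncomputable def LL (N : ℕ) : ℝ := Real.log (Real.log N)

/-- the number of the prime factors -/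
noncomputable def om (n : ℕ) : ℝ := (n.primeFactors.card : ℝ)

theorem LL_top : Tendsto LL atTop atTop :=
  (Real.tendsto_log_atTop.comp Real.tendsto_log_atTop).comp tendsto_natCast_atTop_atTop

theorem om_prime {p : ℕ} (hp : p.Prime) : om p = 1 := by
  unfold om
  rw [hp.primeFactors]
  simp

theorem om_add : AddF om := by
  constructor
  · intro m n _ _ h
    unfold om
    rw [h.primeFactors_mul, card_union_of_disjoint h.disjoint_primeFactors]
    push_cast
    rfl
  · intro p hp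
    rw [om_prime hp]
    norm_num

theorem am_bq (N : ℕ) : Am om N = Bq om N := by
  unfold Pool.Agent.H998_EK.Am Pool.Agent.H998_EK.Bq
  refine sum_congr rfl fun p hp => ?_
  rw [om_prime (mem_filter.1 hp).2, one_pow]

theorem bq_LL : ∃ C : ℝ, 0 ≤ C ∧ ∀ N : ℕ, 3 ≤ N → |Bq om N - LL N| ≤ C := by
  obtain ⟨C, hC⟩ := Erdos456.Mert.mertens_inv
  refine ⟨C, (abs_nonneg _).trans (hC 3 le_rfl), fun N hN => ?_⟩
  have e : Bq om N = ∑ p ∈ (Icc 1 N).filter Nat.Prime, (1 : ℝ) / p := by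
    unfold Pool.Agent.H998_EK.Bq
    refine sum_congr rfl fun p hp => ?_
    rw [om_prime (mem_filter.1 hp).2, one_pow]
  rw [e]
  exact hC N hN

theorem bq_top : Tendsto (Bq om) atTop atTop := by
  obtain ⟨C, -, hC⟩ := bq_LL
  have h2 : Tendsto (fun N : ℕ => LL N - C) atTop atTop :=
    tendsto_atTop_add_const_right _ (-C) LL_top
  refine tendsto_atTop_mono' _ ?_ h2
  filter_upwards [eventually_ge_atTop 3] with N hN
  have := (abs_le.1 (hC N hN)).1
  linarith

/-- the thresholds in the two normalisations -/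
theorem shift {C y η : ℝ} (hC : 0 ≤ C) (hη : 0 < η) : ∃ s₀ : ℝ, 1 ≤ s₀ ∧ ∀ s t T : ℝ, s₀ ≤ s →
    0 ≤ t → |s ^ 2 - t ^ 2| ≤ C → |T - (s ^ 2 + y * s)| ≤ η / 4 * s →
    0 < t ∧ |T - (t ^ 2 + y * t)| ≤ η * t := by
  refine ⟨1 + 2 * C + 4 * C * (1 + |y|) / η, ?_, fun s t T hs ht hst hT => ?_⟩
  · have : 0 ≤ 4 * C * (1 + |y|) / η := by positivity
    linarith
  have h0 : 0 ≤ 4 * C * (1 + |y|) / η := by positivity
  have hs1 : 1 ≤ s := by linarith
  have hs2 : 2 * C ≤ s := by linarith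
  have hs3 : 4 * C * (1 + |y|) ≤ η * s := by
    have h1 : 4 * C * (1 + |y|) / η ≤ s := by linarith
    rw [div_le_iff₀ hη] at h1
    linarith
  have h1 : |s - t| * s ≤ C := by
    have h2 : |s - t| * (s + t) = |s ^ 2 - t ^ 2| := by
      have e : s ^ 2 - t ^ 2 = (s - t) * (s + t) := by ring
      rw [e, abs_mul, abs_of_nonneg (by linarith : 0 ≤ s + t)]
    have h3 : 0 ≤ |s - t| := abs_nonneg _
    nlinarith
  have h2 : |s - t| ≤ C := by
    have h3 : 0 ≤ |s - t| := abs_nonneg _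
    nlinarith
  have h3 : s / 2 ≤ t := by
    have h4 := (abs_le.1 (le_refl |s - t|)).2
    have h5 : |s - t| ≤ s / 2 := by linarith
    linarith
  refine ⟨by linarith, ?_⟩
  have h4 : |T - (t ^ 2 + y * t)| ≤ |T - (s ^ 2 + y * s)| + |s ^ 2 - t ^ 2| + |y| * |s - t| := by
    have e : T - (t ^ 2 + y * t) = (T - (s ^ 2 + y * s)) + (s ^ 2 - t ^ 2) + y * (s - t) := by ring
    rw [e]
    refine (abs_add_le _ _).trans ?_
    rw [abs_mul]
    exact add_le_add (abs_add_le _ _) le_rfl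
  have h5 : |y| * |s - t| ≤ |y| * C := mul_le_mul_of_nonneg_left h2 (abs_nonneg _)
  have h6 : η * (s / 2) ≤ η * t := mul_le_mul_of_nonneg_left h3 hη.le
  nlinarith

/-- **Erdős–Kac for a linear form, uniformly in the threshold** -/
theorem ek1 {A B : ℕ} (hA : 1 ≤ A) (y ε : ℝ) (hε : 0 < ε) : ∃ (δ : ℝ) (N₀ : ℕ), 0 < δ ∧
    ∀ N : ℕ, N₀ ≤ N → ∀ T : ℝ, |T - (LL N + y * √(LL N))| ≤ δ * √(LL N) →
      |(((range N).filter fun n => om (A * n + B) ≤ T).card : ℝ) - Phi y * N| ≤ ε * N := by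
  obtain ⟨η, hη, hη1, hη2⟩ : ∃ η : ℝ, 0 < η ∧ |Phi (y + η) - Phi y| < ε / 2 ∧
      |Phi (y + -η) - Phi y| < ε / 2 := by
    obtain ⟨δ, hδ, h⟩ := Metric.continuousAt_iff.1 (Phi_cont.continuousAt (x := y)) (ε / 2) (by positivity)
    simp only [Real.dist_eq] at h
    refine ⟨δ / 2, by positivity, h ?_, h ?_⟩
    · rw [add_sub_cancel_left, abs_of_pos (by positivity)]; linarith
    · rw [add_sub_cancel_left, abs_neg, abs_of_pos (by positivity)]; linarith
  obtain ⟨C, hC, hBL⟩ := bq_LL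
  obtain ⟨s₀, hs₀, hsh⟩ := shift (y := y) hC hη
  have hne : ∀ i j : Unit, i ≠ j → (fun _ : Unit => A) i * (fun _ : Unit => B) j ≠
      (fun _ : Unit => A) j * (fun _ : Unit => B) i := fun i j h => absurd (Subsingleton.elim i j) h
  have hup := box_lim om_add bq_top (a := fun _ : Unit => A) (b := fun _ => B) (fun _ => hA) hne
    (fun _ => y + η)
  have hlo := box_lim om_add bq_top (a := fun _ : Unit => A) (b := fun _ => B) (fun _ => hA) hne
    (fun _ => y + -η)
  simp only [Finset.univ_unique, Finset.prod_singleton, forall_const] at hup hlo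
  obtain ⟨X₁, hX₁⟩ := Metric.tendsto_atTop.1 hup (ε / 2) (by positivity)
  obtain ⟨X₂, hX₂⟩ := Metric.tendsto_atTop.1 hlo (ε / 2) (by positivity)
  obtain ⟨X₃, hX₃⟩ := eventually_atTop.1 (LL_top.eventually (eventually_ge_atTop (s₀ ^ 2)))
  refine ⟨η / 4, 3 + X₁ + X₂ + X₃, by positivity, fun N hN T hT => ?_⟩
  have hL : s₀ ^ 2 ≤ LL N := hX₃ N (by omega)
  have hL0 : 0 ≤ LL N := le_trans (by positivity) hL
  have hs : s₀ ≤ √(LL N) := Real.le_sqrt_of_sq_le hL
  have hB0 : 0 ≤ Bq om N := by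
    unfold Pool.Agent.H998_EK.Bq
    exact sum_nonneg fun p _ => by positivity
  have h1 := hsh (√(LL N)) (√(Bq om N)) T hs (Real.sqrt_nonneg _) (by
    rw [Real.sq_sqrt hL0, Real.sq_sqrt hB0, abs_sub_comm]
    exact hBL N (by omega)) (by
    rw [Real.sq_sqrt hL0]
    exact hT)
  obtain ⟨ht0, h2⟩ := h1
  rw [Real.sq_sqrt hB0, abs_le] at h2
  have hN0 : (0 : ℝ) < N := by exact_mod_cast (by omega : 0 < N)
  have a1 := hX₁ N (by omega)
  have a2 := hX₂ N (by omega)
  rw [Real.dist_eq] at a1 a2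
  have c1 : (((range N).filter fun n => om (A * n + B) ≤ T).card : ℝ) ≤
      (((range N).filter fun n => FF om N (A * n + B) ≤ y + η).card : ℝ) := by
    norm_cast
    refine card_le_card fun n hn => ?_
    rw [mem_filter] at hn ⊢
    refine ⟨hn.1, ?_⟩
    unfold Pool.Agent.H998_EK.FF
    rw [div_le_iff₀ ht0, am_bq]
    linarith [hn.2]
  have c2 : (((range N).filter fun n => FF om N (A * n + B) ≤ y + -η).card : ℝ) ≤
      (((range N).filter fun n => om (A * n + B) ≤ T).card : ℝ) := by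
    norm_cast
    refine card_le_card fun n hn => ?_
    rw [mem_filter] at hn ⊢
    refine ⟨hn.1, ?_⟩
    have h3 := hn.2
    unfold Pool.Agent.H998_EK.FF at h3
    rw [div_le_iff₀ ht0, am_bq] at h3
    linarith
  have b1 : (((range N).filter fun n => FF om N (A * n + B) ≤ y + η).card : ℝ) ≤
      (Phi y + ε) * N := by
    have h3 := (abs_lt.1 a1).2
    have h4 := (abs_lt.1 hη1).2
    have h5 : (((range N).filter fun n => FF om N (A * n + B) ≤ y + η).card : ℝ) / N ≤ Phi y + ε := by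
      linarith
    rwa [div_le_iff₀ hN0] at h5
  have b2 : (Phi y - ε) * N ≤
      (((range N).filter fun n => FF om N (A * n + B) ≤ y + -η).card : ℝ) := by
    have h3 := (abs_lt.1 a2).1
    have h4 := (abs_lt.1 hη2).1
    have h5 : Phi y - ε ≤ (((range N).filter fun n => FF om N (A * n + B) ≤ y + -η).card : ℝ) / N := by
      linarith
    rwa [le_div_iff₀ hN0] at h5
  rw [abs_le]
  constructor <;> linarith

end Pool.Agent.H468.WM
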