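import Pool.Agent.H468.WM.Ek

/-!
# Residue classes and squarefree numbers
-/

set_option autoImplicit false
set_option linter.all false

open scoped Classical

namespace Pool.Agent.H468.WM

open Finset Filter Topology
open Pool.Agent.H998_EK (Phi Phi_cont Phi_nonneg Phi_le_one)

/-- the Erdős–Kac theorem for the numbers with the property `R`, uniformly in the threshold -/
def EKP (R : ℕ → Prop) (y : ℝ) : Prop := ∀ ε : ℝ, 0 < ε → ∃ (δ : ℝ) (Y₀ : ℕ), 0 < δ ∧
  ∀ Y : ℕ, Y₀ ≤ Y → ∀ T : ℝ, |T - (LL Y + y * √(LL Y))| ≤ δ * √(LL Y) →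
    |(((Icc 1 Y).filter fun n => R n ∧ om n ≤ T).card : ℝ) -
      Phi y * (((Icc 1 Y).filter fun n => R n).card : ℝ)| ≤ ε * Y

theorem filter_card_congr {α : Type} (s : Finset α) {p q : α → Prop} {ip : DecidablePred p}
    {iq : DecidablePred q} (h : ∀ x ∈ s, p x ↔ q x) : (s.filter p).card = (s.filter q).card :=
  congrArg card (filter_congr h)

theorem EKP.congr {R R' : ℕ → Prop} {y : ℝ} (h : EKP R y) (hR : ∀ n, 0 < n → (R n ↔ R' n)) :
    EKP R' y := by
  intro ε hε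
  obtain ⟨δ, Y₀, hδ, h1⟩ := h ε hε
  refine ⟨δ, Y₀, hδ, fun Y hY T hT => ?_⟩
  have e1 : ((Icc 1 Y).filter fun n => R' n ∧ om n ≤ T).card =
      ((Icc 1 Y).filter fun n => R n ∧ om n ≤ T).card :=
    filter_card_congr _ fun n hn => by
      rw [mem_Icc] at hn
      rw [hR n (by omega)]
  have e2 : ((Icc 1 Y).filter fun n => R' n).card = ((Icc 1 Y).filter fun n => R n).card :=
    filter_card_congr _ fun n hn => by
      rw [mem_Icc] at hn
      rw [hR n (by omega)]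
  rw [e1, e2]
  exact h1 Y hY T hT

theorem EKP.false (y : ℝ) : EKP (fun _ => False) y := by
  intro ε hε
  refine ⟨1, 0, one_pos, fun Y _ T _ => ?_⟩
  simp only [false_and, filter_false, card_empty, Nat.cast_zero, mul_zero, sub_zero, abs_zero]
  positivity

/-- disjoint unions -/
theorem EKP.or {R R' R'' : ℕ → Prop} {y : ℝ} (h : EKP R y) (h' : EKP R' y)
    (hd : ∀ n, R n → R' n → False) (hR : ∀ n, R'' n ↔ (R n ∨ R' n)) : EKP R'' y := by
  intro ε hε
  obtain ⟨δ, Y₀, hδ, h1⟩ := h (ε / 2) (by positivity)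
  obtain ⟨δ', Y₀', hδ', h1'⟩ := h' (ε / 2) (by positivity)
  refine ⟨min δ δ', Y₀ + Y₀', lt_min hδ hδ', fun Y hY T hT => ?_⟩
  have hs := Real.sqrt_nonneg (LL Y)
  have b1 := h1 Y (by omega) T (hT.trans (mul_le_mul_of_nonneg_right (min_le_left _ _) hs))
  have b2 := h1' Y (by omega) T (hT.trans (mul_le_mul_of_nonneg_right (min_le_right _ _) hs))
  have key : ∀ Q : ℕ → Prop, ((Icc 1 Y).filter fun n => R'' n ∧ Q n).card =
      ((Icc 1 Y).filter fun n => R n ∧ Q n).card + ((Icc 1 Y).filter fun n => R' n ∧ Q n).card := by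
    intro Q
    rw [← card_union_of_disjoint]
    · congr 1
      ext n
      simp only [mem_filter, mem_union, hR]
      tauto
    · rw [Finset.disjoint_left]
      intro n h3 h4
      exact hd n (mem_filter.1 h3).2.1 (mem_filter.1 h4).2.1
  have k1 := key fun n => om n ≤ T
  have k2 := key fun _ => True
  simp only [and_true] at k2
  have k1' := congrArg (Nat.cast : ℕ → ℝ) k1
  have k2' := congrArg (Nat.cast : ℕ → ℝ) k2
  push_cast at k1' k2'
  rw [abs_le] at b1 b2 ⊢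
  rw [k1', k2']
  constructor
  · linarith [b1.1, b2.1]
  · linarith [b1.2, b2.2]

/-- approximation from above -/
theorem EKP.approx {R : ℕ → Prop} {y : ℝ} (h : ∀ ε : ℝ, 0 < ε → ∃ R' : ℕ → Prop, EKP R' y ∧
    (∀ n, R n → R' n) ∧ ∃ Y₀ : ℕ, ∀ Y : ℕ, Y₀ ≤ Y →
      (((Icc 1 Y).filter fun n => R' n ∧ ¬ R n).card : ℝ) ≤ ε * Y) : EKP R y := by
  intro ε hε
  obtain ⟨R', h1, h2, Y₁, h3⟩ := h (ε / 4) (by positivity)
  obtain ⟨δ, Y₀, hδ, h4⟩ := h1 (ε / 4) (by positivity)
  refine ⟨δ, Y₀ + Y₁, hδ, fun Y hY T hT => ?_⟩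
  have b1 := h4 Y (by omega) T hT
  have b2 := h3 Y (by omega)
  have key : ∀ Q : ℕ → Prop, ((Icc 1 Y).filter fun n => R n ∧ Q n).card ≤
      ((Icc 1 Y).filter fun n => R' n ∧ Q n).card ∧ ((Icc 1 Y).filter fun n => R' n ∧ Q n).card ≤
      ((Icc 1 Y).filter fun n => R n ∧ Q n).card +
        ((Icc 1 Y).filter fun n => R' n ∧ ¬ R n).card := by
    intro Q
    constructor
    · refine card_le_card fun n hn => ?_
      rw [mem_filter] at hn ⊢
      exact ⟨hn.1, h2 n hn.2.1, hn.2.2⟩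
    · refine le_trans (card_le_card ?_) (card_union_le _ _)
      intro n hn
      rw [mem_union, mem_filter, mem_filter]
      rw [mem_filter] at hn
      by_cases hR : R n
      · exact Or.inl ⟨hn.1, hR, hn.2.2⟩
      · exact Or.inr ⟨hn.1, hn.2.1, hR⟩
  obtain ⟨k1, k2⟩ := key fun n => om n ≤ T
  obtain ⟨k3, k4⟩ := key fun _ => True
  simp only [and_true] at k3 k4
  have k1' : (((Icc 1 Y).filter fun n => R n ∧ om n ≤ T).card : ℝ) ≤
      (((Icc 1 Y).filter fun n => R' n ∧ om n ≤ T).card : ℝ) := by exact_mod_cast k1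
  have k2' : (((Icc 1 Y).filter fun n => R' n ∧ om n ≤ T).card : ℝ) ≤
      (((Icc 1 Y).filter fun n => R n ∧ om n ≤ T).card : ℝ) +
      (((Icc 1 Y).filter fun n => R' n ∧ ¬ R n).card : ℝ) := by exact_mod_cast k2
  have k3' : (((Icc 1 Y).filter fun n => R n).card : ℝ) ≤
      (((Icc 1 Y).filter fun n => R' n).card : ℝ) := by exact_mod_cast k3
  have k4' : (((Icc 1 Y).filter fun n => R' n).card : ℝ) ≤
      (((Icc 1 Y).filter fun n => R n).card : ℝ) +
      (((Icc 1 Y).filter fun n => R' n ∧ ¬ R n).card : ℝ) := by exact_mod_cast k4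
  have p0 := Phi_nonneg y
  have p1 := Phi_le_one y
  set r : ℝ := (((Icc 1 Y).filter fun n => R n).card : ℝ) with hr
  set r' : ℝ := (((Icc 1 Y).filter fun n => R' n).card : ℝ) with hr'
  have hm1 : Phi y * r ≤ Phi y * r' := mul_le_mul_of_nonneg_left k3' p0
  have hm2 : Phi y * r' ≤ Phi y * r + ε / 4 * Y := by
    have h5 : Phi y * (r' - r) ≤ 1 * (r' - r) := mul_le_mul_of_nonneg_right p1 (by linarith)
    linarith
  rw [abs_le] at b1 ⊢
  constructor
  · linarith [b1.1]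
  · linarith [b1.2]

/-- the progressions -/
theorem ap_card {M b Y : ℕ} (hM : 0 < M) (hb : b < M) (hY : M ≤ Y) (Q : ℕ → Prop) :
    ((Icc 1 Y).filter fun n => n % M = b ∧ Q n).card ≤
      ((range ((Y - b) / M + 1)).filter fun j => Q (M * j + b)).card ∧
    ((range ((Y - b) / M + 1)).filter fun j => Q (M * j + b)).card ≤
      ((Icc 1 Y).filter fun n => n % M = b ∧ Q n).card + 1 := by
  constructor
  · refine card_le_card_of_injOn (fun n => n / M) ?_ ?_
    · intro n hn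
      rw [mem_coe, mem_filter, mem_Icc] at hn
      rw [mem_coe, mem_filter, mem_range]
      have h1 := Nat.div_add_mod n M
      rw [hn.2.1] at h1
      refine ⟨?_, by rw [h1]; exact hn.2.2⟩
      rw [Nat.lt_succ_iff, Nat.le_div_iff_mul_le hM]
      have h2 : n / M * M = M * (n / M) := mul_comm _ _
      show n / M * M ≤ Y - b
      omega
    · intro n hn n' hn' h
      rw [mem_coe, mem_filter] at hn hn'
      have h1 := Nat.div_add_mod n M
      have h2 := Nat.div_add_mod n' M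
      have h3 : n / M = n' / M := h
      rw [← h1, ← h2, hn.2.1, hn'.2.1, h3]
  · have h1 : (((range ((Y - b) / M + 1)).filter fun j => Q (M * j + b)).image
        fun j => M * j + b) ⊆ insert 0 ((Icc 1 Y).filter fun n => n % M = b ∧ Q n) := by
      intro n hn
      obtain ⟨j, hj, rfl⟩ := mem_image.1 hn
      rw [mem_filter, mem_range, Nat.lt_succ_iff, Nat.le_div_iff_mul_le hM] at hj
      rw [mem_insert, mem_filter, mem_Icc]
      by_cases h0 : M * j + b = 0
      · exact Or.inl h0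
      · refine Or.inr ⟨⟨by omega, ?_⟩, ?_, hj.2⟩
        · have : j * M = M * j := mul_comm _ _
          omega
        · rw [Nat.mul_add_mod, Nat.mod_eq_of_lt hb]
    rw [← card_image_of_injective (f := fun j => M * j + b) _ (fun j j' h => by
      have h' : M * j + b = M * j' + b := h
      have h2 : M * j = M * j' := by omega
      exact Nat.eq_of_mul_eq_mul_left hM h2)]
    exact (card_le_card h1).trans (card_insert_le _ _)

theorem LL_close {J Y : ℕ} (h1 : Y ≤ J ^ 2) (h2 : J ≤ Y ^ 2) (hY : 3 ≤ Y) (hJ : 3 ≤ J) :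
    |LL Y - LL J| ≤ 1 := by
  have hY0 : (1 : ℝ) < Y := by exact_mod_cast (by omega : 1 < Y)
  have hJ0 : (1 : ℝ) < J := by exact_mod_cast (by omega : 1 < J)
  have hlY : 0 < Real.log Y := Real.log_pos hY0
  have hlJ : 0 < Real.log J := Real.log_pos hJ0
  have g1 : Real.log Y ≤ 2 * Real.log J := by
    have : Real.log Y ≤ Real.log ((J : ℝ) ^ 2) := Real.log_le_log (by linarith) (by exact_mod_cast h1)
    rwa [Real.log_pow, Nat.cast_ofNat] at this
  have g2 : Real.log J ≤ 2 * Real.log Y := by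
    have : Real.log J ≤ Real.log ((Y : ℝ) ^ 2) := Real.log_le_log (by linarith) (by exact_mod_cast h2)
    rwa [Real.log_pow, Nat.cast_ofNat] at this
  have g3 : LL Y ≤ Real.log 2 + LL J := by
    unfold LL
    rw [← Real.log_mul (by norm_num) hlJ.ne']
    exact Real.log_le_log hlY g1
  have g4 : LL J ≤ Real.log 2 + LL Y := by
    unfold LL
    rw [← Real.log_mul (by norm_num) hlY.ne']
    exact Real.log_le_log hlJ g2
  have g5 := Real.log_two_lt_d9
  rw [abs_le]
  constructor <;> linarith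

/-- **Erdős–Kac in a residue class** -/
theorem ekp_class {M b : ℕ} (hM : 0 < M) (hb : b < M) (y : ℝ) {R : ℕ → Prop}
    (hR : ∀ n, R n ↔ n % M = b) : EKP R y := by
  intro ε hε
  obtain ⟨δ, N₀, hδ, h1⟩ := ek1 (A := M) (B := b) hM y (ε / 4) (by positivity)
  obtain ⟨s₀, hs₀, hsh⟩ := shift (C := 1) (y := y) zero_le_one hδ
  obtain ⟨X₃, hX₃⟩ := eventually_atTop.1 (LL_top.eventually (eventually_ge_atTop (s₀ ^ 2)))
  refine ⟨δ / 4, 9 + 4 * M ^ 2 + M * (N₀ + 4) + X₃ + ⌈4 / ε⌉₊, by positivity, fun Y hY T hT => ?_⟩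
  have hMY : M ≤ Y := by nlinarith
  have hY9 : 9 ≤ Y := by omega
  obtain ⟨J, hJ⟩ : ∃ J : ℕ, J = (Y - b) / M + 1 := ⟨_, rfl⟩
  have hJ1 : Y < (J + 1) * M := by
    have h2 : Y - b < ((Y - b) / M + 1) * M := Nat.lt_mul_of_div_lt (Nat.lt_succ_self _) hM
    rw [← hJ] at h2
    have h3 : (J + 1) * M = J * M + M := by ring
    omega
  have hJ2 : N₀ + 3 ≤ J := by
    by_contra hc
    have h3 : J + 1 ≤ N₀ + 3 := by omega
    have h4 : (J + 1) * M ≤ (N₀ + 3) * M := Nat.mul_le_mul_right _ h3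
    have h5 : M * (N₀ + 4) = (N₀ + 3) * M + M := by ring
    omega
  have hJY : J ≤ Y + 1 := by
    rw [hJ]
    have := Nat.div_le_self (Y - b) M
    omega
  have hsq : Y ≤ J ^ 2 := by
    have h3 : Y < 2 * J * M := by
      have : (J + 1) * M ≤ 2 * J * M := Nat.mul_le_mul_right _ (by omega)
      omega
    have h4 : 4 * M ^ 2 ≤ Y := by omega
    by_contra hc
    push Not at hc
    have h5 : Y * Y < 2 * J * M * (2 * J * M) := Nat.mul_lt_mul'' h3 h3
    have h6 : 2 * J * M * (2 * J * M) = 4 * M ^ 2 * J ^ 2 := by ring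
    have h7 : 4 * M ^ 2 * J ^ 2 ≤ Y * Y := Nat.mul_le_mul h4 hc.le
    omega
  have hsq2 : J ≤ Y ^ 2 := by nlinarith
  have hL : s₀ ^ 2 ≤ LL Y := hX₃ Y (by omega)
  have hL0 : 0 ≤ LL Y := le_trans (by positivity) hL
  have hJL0 : 0 ≤ LL J := by
    have h3 : (3 : ℝ) ≤ J := by exact_mod_cast (by omega : 3 ≤ J)
    unfold LL
    apply Real.log_nonneg
    rw [Real.le_log_iff_exp_le (by linarith)]
    have := Real.exp_one_lt_d9
    linarith
  have hcl := LL_close hsq hsq2 (by omega) (by omega)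
  have h2 := (hsh (√(LL Y)) (√(LL J)) T (Real.le_sqrt_of_sq_le hL) (Real.sqrt_nonneg _) (by
    rw [Real.sq_sqrt hL0, Real.sq_sqrt hJL0]
    exact hcl) (by
    rw [Real.sq_sqrt hL0]
    exact hT)).2
  rw [Real.sq_sqrt hJL0] at h2
  have h3 := h1 J (by omega) T h2
  obtain ⟨k1, k2⟩ := ap_card hM hb hMY fun n => om n ≤ T
  obtain ⟨k3, k4⟩ := ap_card hM hb hMY fun _ => True
  rw [← hJ] at k1 k2 k3 k4
  simp only [and_true, filter_true, card_range] at k3 k4
  have k1' : (((Icc 1 Y).filter fun n => n % M = b ∧ om n ≤ T).card : ℝ) ≤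
      (((range J).filter fun j => om (M * j + b) ≤ T).card : ℝ) := by exact_mod_cast k1
  have k2' : (((range J).filter fun j => om (M * j + b) ≤ T).card : ℝ) ≤
      (((Icc 1 Y).filter fun n => n % M = b ∧ om n ≤ T).card : ℝ) + 1 := by exact_mod_cast k2
  have k3' : (((Icc 1 Y).filter fun n => n % M = b).card : ℝ) ≤ J := by exact_mod_cast k3
  have k4' : (J : ℝ) ≤ (((Icc 1 Y).filter fun n => n % M = b).card : ℝ) + 1 := by exact_mod_cast k4
  have p0 := Phi_nonneg y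
  have p1 := Phi_le_one y
  set r : ℝ := (((Icc 1 Y).filter fun n => n % M = b).card : ℝ) with hr
  have m1 : Phi y * r ≤ Phi y * J := mul_le_mul_of_nonneg_left k3' p0
  have m2 : Phi y * J ≤ Phi y * r + 1 := by
    have h5 : Phi y * (J - r) ≤ 1 * (J - r) := mul_le_mul_of_nonneg_right p1 (by linarith)
    linarith
  have hJY' : (J : ℝ) ≤ Y + 1 := by exact_mod_cast hJY
  have hYe : 4 / ε ≤ (Y : ℝ) := (Nat.le_ceil _).trans (by exact_mod_cast (by omega))
  have hYe' : 4 ≤ ε * Y := by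
    rw [div_le_iff₀ hε] at hYe
    linarith
  have hY1 : (1 : ℝ) ≤ Y := by exact_mod_cast (by omega : 1 ≤ Y)
  have hJe : ε / 4 * (J : ℝ) ≤ ε / 4 * (Y + Y) :=
    mul_le_mul_of_nonneg_left (by linarith) (by positivity)
  have e1 : ((Icc 1 Y).filter fun n => R n ∧ om n ≤ T).card =
      ((Icc 1 Y).filter fun n => n % M = b ∧ om n ≤ T).card :=
    filter_card_congr _ fun n _ => by rw [hR n]
  have e2 : ((Icc 1 Y).filter fun n => R n).card = ((Icc 1 Y).filter fun n => n % M = b).card :=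
    filter_card_congr _ fun n _ => by rw [hR n]
  rw [e1, e2]
  rw [abs_le] at h3 ⊢
  constructor
  · linarith [h3.1]
  · linarith [h3.2]

theorem ekp_classes {M : ℕ} (hM : 0 < M) (y : ℝ) (B : Finset ℕ) (hB : B ⊆ range M) :
    EKP (fun n => n % M ∈ B) y := by
  induction B using Finset.induction_on with
  | empty => exact (EKP.false y).congr fun n _ => by simp
  | insert b B hb ih =>
    have h1 := ih fun x hx => hB (mem_insert_of_mem hx)
    have h2 := ekp_class (R := fun n => n % M = b) hM (mem_range.1 (hB (mem_insert_self b B))) y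
      fun n => Iff.rfl
    refine h2.or h1 (fun n h3 h4 => hb (by rw [← h3]; exact h4)) fun n => ?_
    rw [mem_insert]

/-- `n` has no square factor `p²`, `p ≤ D` -/
def SqD (D n : ℕ) : Prop := ∀ p : ℕ, p.Prime → p ≤ D → ¬ p ^ 2 ∣ n

theorem sqD_mod {D M n : ℕ} (h : ∀ p : ℕ, p.Prime → p ≤ D → p ^ 2 ∣ M) : SqD D (n % M) ↔ SqD D n := by
  unfold SqD
  refine forall_congr' fun p => forall_congr' fun hp => forall_congr' fun hpD => ?_
  rw [Nat.dvd_mod_iff (h p hp hpD)]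

theorem tail_card (D Y : ℕ) (hD : 0 < D) :
    (((Icc 1 Y).filter fun n => ∃ d, D < d ∧ d ^ 2 ∣ n).card : ℝ) ≤ Y / D := by
  rcases le_total Y D with hYD | hYD
  · have : ((Icc 1 Y).filter fun n => ∃ d, D < d ∧ d ^ 2 ∣ n) = ∅ := by
      rw [filter_eq_empty_iff]
      rintro n hn ⟨d, hd, hdn⟩
      rw [mem_Icc] at hn
      have h1 := Nat.le_of_dvd (by omega) hdn
      nlinarith
    rw [this, card_empty, Nat.cast_zero]
    positivity
  have hsub : ((Icc 1 Y).filter fun n => ∃ d, D < d ∧ d ^ 2 ∣ n) ⊆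
      (Ioc D Y).biUnion fun d => (Icc 1 Y).filter fun n => d ^ 2 ∣ n := by
    intro n hn
    obtain ⟨h1, d, hd, hdn⟩ := mem_filter.1 hn
    rw [mem_Icc] at h1
    have h2 := Nat.le_of_dvd (by omega) hdn
    rw [mem_biUnion]
    refine ⟨d, mem_Ioc.2 ⟨hd, by nlinarith⟩, mem_filter.2 ⟨mem_Icc.2 h1, hdn⟩⟩
  have h1 : (((Icc 1 Y).filter fun n => ∃ d, D < d ∧ d ^ 2 ∣ n).card : ℝ) ≤
      ∑ d ∈ Ioc D Y, (((Icc 1 Y).filter fun n => d ^ 2 ∣ n).card : ℝ) := by
    exact_mod_cast (card_le_card hsub).trans card_biUnion_le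
  refine h1.trans ?_
  have h2 : ∀ d ∈ Ioc D Y, (((Icc 1 Y).filter fun n => d ^ 2 ∣ n).card : ℝ) ≤
      Y * (((d : ℝ)) ^ 2)⁻¹ := by
    intro d hd
    rw [mem_Ioc] at hd
    have e : (Icc 1 Y).filter (fun n => d ^ 2 ∣ n) = (Ioc 0 Y).filter (fun n => d ^ 2 ∣ n) := rfl
    rw [e, Nat.Ioc_filter_dvd_card_eq_div]
    refine (Nat.cast_div_le).trans (le_of_eq ?_)
    push_cast
    rw [div_eq_mul_inv]
  refine (sum_le_sum h2).trans ?_
  rw [← mul_sum]
  have h3 := sum_Ioc_inv_sq_le_sub (α := ℝ) hD.ne' hYD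
  have h4 : ∑ i ∈ Ioc D Y, (((i : ℝ)) ^ 2)⁻¹ ≤ (D : ℝ)⁻¹ := by
    refine h3.trans ?_
    have : 0 ≤ ((Y : ℝ))⁻¹ := by positivity
    linarith
  rw [div_eq_mul_inv]
  exact mul_le_mul_of_nonneg_left h4 (Nat.cast_nonneg _)

/-- **Erdős–Kac for the squarefree numbers in residue classes** -/
theorem ekp_sqf {M : ℕ} (hM : 0 < M) (y : ℝ) (K : Finset ℕ) {R : ℕ → Prop}
    (hR : ∀ n, R n ↔ (Squarefree n ∧ n % M ∈ K)) : EKP R y := by
  refine EKP.approx fun ε hε => ?_
  obtain ⟨D, hD⟩ := exists_nat_gt (1 / ε)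
  have hD0 : 0 < D := by
    rcases Nat.eq_zero_or_pos D with h | h
    · rw [h, Nat.cast_zero] at hD
      have : 0 < 1 / ε := by positivity
      linarith
    · exact h
  obtain ⟨M', hM'⟩ : ∃ M' : ℕ, M' = M * (D.factorial) ^ 2 := ⟨_, rfl⟩
  have hM'0 : 0 < M' := by
    rw [hM']
    exact Nat.mul_pos hM (pow_pos (Nat.factorial_pos D) 2)
  have hdiv : ∀ p : ℕ, p.Prime → p ≤ D → p ^ 2 ∣ M' := by
    intro p hp hpD
    rw [hM']
    exact (pow_dvd_pow_of_dvd ((Nat.Prime.dvd_factorial hp).2 hpD) 2).mul_left M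
  have hMM : M ∣ M' := by rw [hM']; exact Dvd.intro _ rfl
  obtain ⟨R', hR'⟩ : ∃ R' : ℕ → Prop, ∀ n, R' n ↔ (n % M ∈ K ∧ SqD D n) := ⟨_, fun n => Iff.rfl⟩
  refine ⟨R', ?_, ?_, 0, fun Y _ => ?_⟩
  · refine (ekp_classes hM'0 y ((range M').filter fun b => b % M ∈ K ∧ SqD D b)
      (filter_subset _ _)).congr fun n _ => ?_
    rw [mem_filter, mem_range, Nat.mod_mod_of_dvd n hMM, sqD_mod hdiv, hR']
    exact ⟨fun h => h.2, fun h => ⟨Nat.mod_lt _ hM'0, h⟩⟩
  · intro n hn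
    obtain ⟨h1, h2⟩ := (hR n).1 hn
    rw [hR']
    refine ⟨h2, fun p hp _ h3 => ?_⟩
    have h4 := h1 p (by rw [← sq]; exact h3)
    exact hp.one_lt.ne' (Nat.isUnit_iff.1 h4)
  · refine le_trans ?_ ((tail_card D Y hD0).trans ?_)
    · refine Nat.cast_le.2 (card_le_card fun n hn => ?_)
      rw [mem_filter] at hn ⊢
      refine ⟨hn.1, ?_⟩
      obtain ⟨h12, h3⟩ := hn.2
      obtain ⟨h1, h2⟩ := (hR' n).1 h12
      have h4 : ¬ Squarefree n := fun h => h3 ((hR n).2 ⟨h, h1⟩)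
      rw [Nat.squarefree_iff_prime_squarefree] at h4
      push Not at h4
      obtain ⟨p, hp, hpn⟩ := h4
      rw [← sq] at hpn
      refine ⟨p, ?_, hpn⟩
      by_contra hc
      exact h2 p hp (by omega) hpn
    · have hDr : (0 : ℝ) < D := by exact_mod_cast hD0
      rw [div_le_iff₀ hDr]
      rw [div_lt_iff₀ hε] at hD
      have hY0 : (0 : ℝ) ≤ Y := Nat.cast_nonneg _
      nlinarith

end Pool.Agent.H468.WM
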