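import Pool.Agent.H468.WM.Hg

/-!
# Fundamental discriminants, uniformly in the condition
-/

set_option autoImplicit false
set_option linter.all false

open scoped Classical

namespace Pool.Agent.H468.WM

open Finset Filter Topology
open Pool.Agent.N919.BS (NN NS NF HG NF_eq)

/-- one bound for all classes and all ranges `X / e`, `e ≤ 8` -/
theorem HGW.all {m : ℕ} {P G : ℤ → Prop} {c : ℝ} (hG : HGW m P G c) {ε : ℝ} (hε : 0 < ε) :
    ∃ X₀ : ℕ, ∀ X : ℕ, X₀ ≤ X → ∀ W : Finset ℕ → Prop, Wt m W →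
      ∀ (s : ℤ) (k r e : ℕ), (s = 1 ∨ s = -1) → (k = 1 ∨ k = 2) →
      (r = 1 ∨ r = 3) → 1 ≤ e → e ≤ 8 →
      |(NN (fun d => P d ∧ (G d ∧ W (opf d))) s k r (X / e) : ℝ) -
        c * NN (fun d => P d ∧ W (opf d)) s k r (X / e)| ≤ ε * X := by
  have h1 : ∀ (s : ℤ) (k r : ℕ), ∃ Y₀ : ℕ, (s = 1 ∨ s = -1) → (k = 1 ∨ k = 2) →
      (r = 1 ∨ r = 3) → ∀ Y : ℕ, Y₀ ≤ Y → ∀ W : Finset ℕ → Prop, Wt m W →
      |(NN (fun d => P d ∧ (G d ∧ W (opf d))) s k r Y : ℝ) -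
        c * NN (fun d => P d ∧ W (opf d)) s k r Y| ≤ ε * Y := by
    intro s k r
    by_cases h : (s = 1 ∨ s = -1) ∧ (k = 1 ∨ k = 2) ∧ (r = 1 ∨ r = 3)
    · obtain ⟨Y₀, hY⟩ := hG s k r h.1 h.2.1 h.2.2 ε hε
      exact ⟨Y₀, fun _ _ _ => hY⟩
    · exact ⟨0, fun a b d => absurd ⟨a, b, d⟩ h⟩
  choose Y hY using h1
  refine ⟨8 * (Y 1 1 1 + Y 1 1 3 + Y 1 2 1 + Y 1 2 3 + (Y (-1) 1 1 + Y (-1) 1 3 + Y (-1) 2 1 +
    Y (-1) 2 3)), fun X hX W hW s k r e hs hk hr he he' => ?_⟩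
  have h2 : Y s k r ≤ X / e := by
    rw [Nat.le_div_iff_mul_le (by omega)]
    have h3 : Y s k r * e ≤ Y s k r * 8 := Nat.mul_le_mul_left _ he'
    rcases hs with rfl | rfl <;> rcases hk with rfl | rfl <;> rcases hr with rfl | rfl <;> omega
  refine (hY s k r hs hk hr _ h2 W hW).trans ?_
  refine mul_le_mul_of_nonneg_left ?_ hε.le
  exact_mod_cast Nat.div_le_self X e

/-- closeness for the fundamental discriminants -/
theorem close_NFW {m : ℕ} {P G : ℤ → Prop} {c : ℝ} (hG : HGW m P G c) :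
    ∀ ε : ℝ, 0 < ε → ∃ X₀ : ℕ, ∀ X : ℕ, X₀ ≤ X → ∀ W : Finset ℕ → Prop, Wt m W →
      |(NF (fun d => P d ∧ (G d ∧ W (opf d))) X : ℝ) - c * (NF (fun d => P d ∧ W (opf d)) X : ℝ)| ≤
        ε * X := by
  intro ε hε
  obtain ⟨X₀, hX₀⟩ := hG.all (ε := ε / 8) (by positivity)
  refine ⟨X₀, fun X hX W hW => ?_⟩
  have a := hX₀ X hX W hW
  have e1 := a 1 1 1 1 (Or.inl rfl) (Or.inl rfl) (Or.inl rfl) le_rfl (by norm_num)
  have e2 := a 1 1 3 4 (Or.inl rfl) (Or.inl rfl) (Or.inr rfl) (by norm_num) (by norm_num)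
  have e3 := a 1 2 1 8 (Or.inl rfl) (Or.inr rfl) (Or.inl rfl) (by norm_num) (by norm_num)
  have e4 := a 1 2 3 8 (Or.inl rfl) (Or.inr rfl) (Or.inr rfl) (by norm_num) (by norm_num)
  have e5 := a (-1) 1 1 4 (Or.inr rfl) (Or.inl rfl) (Or.inl rfl) (by norm_num) (by norm_num)
  have e6 := a (-1) 1 3 1 (Or.inr rfl) (Or.inl rfl) (Or.inr rfl) le_rfl (by norm_num)
  have e7 := a (-1) 2 1 8 (Or.inr rfl) (Or.inr rfl) (Or.inl rfl) (by norm_num) (by norm_num)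
  have e8 := a (-1) 2 3 8 (Or.inr rfl) (Or.inr rfl) (Or.inr rfl) (by norm_num) (by norm_num)
  rw [Nat.div_one] at e1 e6
  rw [NF_eq, NF_eq]
  push_cast
  rw [abs_le] at e1 e2 e3 e4 e5 e6 e7 e8 ⊢
  constructor
  · linarith [e1.1, e2.1, e3.1, e4.1, e5.1, e6.1, e7.1, e8.1]
  · linarith [e1.2, e2.2, e3.2, e4.2, e5.2, e6.2, e7.2, e8.2]

/-- the number of the primes is a sum of the numbers in the classes -/
theorem wt_card {m : ℕ} (hm : 0 < m) (A : ℕ → Prop) : Wt m fun S => A S.card := by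
  intro S S' h
  have e : ∀ S : Finset ℕ, S.card = ∑ a ∈ range m, cnt m S a := by
    intro S
    unfold cnt
    exact card_eq_sum_card_fiberwise fun p _ => mem_coe.2 (mem_range.2 (Nat.mod_lt p hm))
  show A S.card ↔ A S'.card
  rw [e S, e S', h]

end Pool.Agent.H468.WM
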