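import Pool.Agent.H468.WM.Ek2
import Pool.Agent.H468.WM.Nf

/-!
# The Erdős–Kac theorem for the integers of a type with local conditions, with the criterion
-/

set_option autoImplicit false
set_option linter.all false

open scoped Classical

namespace Pool.Agent.H468.WM

open Finset Filter Topology
open Pool.Agent.H998_EK (Phi Phi_cont Phi_nonneg Phi_le_one)
open Pool.Agent.N919.BS (NN NS NF HG Rt17 NF_eq core)
open Pool.Agent.N855.GF.Lc17 (Lc KQ mem_KQ lc_and lc_root)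
open Pool.Agent.N916.MO (G17)
open Pool.Agent.Y703.CQ (c2)

/-- Erdős–Kac in a class of integers `s k M` -/
theorem ek_NN {m : ℕ} (h136 : 136 ∣ m) (hm : 0 < m) {P : ℤ → Prop} (hP : Lc m P) {s : ℤ} {k r : ℕ}
    (hs : s = 1 ∨ s = -1) (hk : k = 1 ∨ k = 2) (hr : r = 1 ∨ r = 3) (y ε : ℝ) (hε : 0 < ε) :
    ∃ (δ : ℝ) (Y₀ : ℕ), 0 < δ ∧ ∀ Y : ℕ, Y₀ ≤ Y → ∀ T : ℝ,
      |T - (LL Y + y * √(LL Y))| ≤ δ * √(LL Y) → ∀ P' : ℤ → Prop,
      (∀ d, P' d ↔ (P d ∧ ((opf d).card : ℝ) ≤ T)) →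
      |(NN P' s k r Y : ℝ) - Phi y * NN P s k r Y| ≤ ε * Y := by
  obtain ⟨R, hR⟩ : ∃ R : ℕ → Prop, ∀ n, R n ↔ (Squarefree n ∧ n % m ∈ KQ m P s k r fun _ => True) :=
    ⟨_, fun n => Iff.rfl⟩
  obtain ⟨δ, Y₀, hδ, h⟩ := ekp_sqf hm y _ hR ε hε
  refine ⟨δ, Y₀, hδ, fun Y hY T hT P' hP' => ?_⟩
  have h1 := h Y hY T hT
  have hR' : ∀ n, R n ↔ (Squarefree n ∧ n % 4 = r ∧ P (s * ((k * n : ℕ) : ℤ))) := by
    intro n
    rw [hR]
    refine and_congr_right fun hn => ?_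
    rw [mem_KQ h136 hm hP hs hk hr (C := fun _ => True) (fun _ => Iff.rfl) hn]
    tauto
  have e1 : NN P s k r Y = ((Icc 1 Y).filter fun n => R n).card := by
    unfold Pool.Agent.N919.BS.NN
    exact filter_card_congr _ fun n _ => (hR' n).symm
  have e2 : NN P' s k r Y = ((Icc 1 Y).filter fun n => R n ∧ om n ≤ T).card := by
    unfold Pool.Agent.N919.BS.NN
    refine filter_card_congr _ fun n _ => ?_
    rw [hR', hP']
    constructor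
    · rintro ⟨h1, h2, h3, h4⟩
      rw [opf_eq hs hk (by omega)] at h4
      exact ⟨⟨h1, h2, h3⟩, h4⟩
    · rintro ⟨⟨h1, h2, h3⟩, h4⟩
      refine ⟨h1, h2, h3, ?_⟩
      rw [opf_eq hs hk (by omega)]
      exact h4
  rw [e1, e2]
  exact h1

/-- one bound for all classes and all ranges `X / e`, `e ≤ 8` -/
theorem ek_all {m : ℕ} (h136 : 136 ∣ m) (hm : 0 < m) {P : ℤ → Prop} (hP : Lc m P)
    (y ε : ℝ) (hε : 0 < ε) :
    ∃ (δ : ℝ) (X₀ : ℕ), 0 < δ ∧ ∀ X : ℕ, X₀ ≤ X → ∀ T : ℝ,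
      |T - (LL X + y * √(LL X))| ≤ δ * √(LL X) → ∀ P' : ℤ → Prop,
      (∀ d, P' d ↔ (P d ∧ ((opf d).card : ℝ) ≤ T)) →
      ∀ (s : ℤ) (k r e : ℕ), (s = 1 ∨ s = -1) → (k = 1 ∨ k = 2) →
      (r = 1 ∨ r = 3) → 1 ≤ e → e ≤ 8 →
      |(NN P' s k r (X / e) : ℝ) - Phi y * NN P s k r (X / e)| ≤ ε * X := by
  have h1 : ∀ (s : ℤ) (k r : ℕ), ∃ (δ : ℝ) (Y₀ : ℕ), 0 < δ ∧ ((s = 1 ∨ s = -1) → (k = 1 ∨ k = 2) →
      (r = 1 ∨ r = 3) → ∀ Y : ℕ, Y₀ ≤ Y → ∀ T : ℝ, |T - (LL Y + y * √(LL Y))| ≤ δ * √(LL Y) →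
      ∀ P' : ℤ → Prop, (∀ d, P' d ↔ (P d ∧ ((opf d).card : ℝ) ≤ T)) →
      |(NN P' s k r Y : ℝ) - Phi y * NN P s k r Y| ≤ ε * Y) := by
    intro s k r
    by_cases h : (s = 1 ∨ s = -1) ∧ (k = 1 ∨ k = 2) ∧ (r = 1 ∨ r = 3)
    · obtain ⟨δ, Y₀, hδ, hY⟩ := ek_NN h136 hm hP h.1 h.2.1 h.2.2 y ε hε
      exact ⟨δ, Y₀, hδ, fun _ _ _ => hY⟩
    · exact ⟨1, 0, one_pos, fun a b d => absurd ⟨a, b, d⟩ h⟩
  choose D Y hD hY using h1
  obtain ⟨δ, hδ, hδ'⟩ : ∃ δ : ℝ, 0 < δ ∧ ∀ (s : ℤ) (k r : ℕ), (s = 1 ∨ s = -1) → (k = 1 ∨ k = 2) →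
      (r = 1 ∨ r = 3) → δ ≤ D s k r := by
    refine ⟨min (min (min (D 1 1 1) (D 1 1 3)) (min (D 1 2 1) (D 1 2 3)))
      (min (min (D (-1) 1 1) (D (-1) 1 3)) (min (D (-1) 2 1) (D (-1) 2 3))),
      lt_min (lt_min (lt_min (hD _ _ _) (hD _ _ _)) (lt_min (hD _ _ _) (hD _ _ _)))
        (lt_min (lt_min (hD _ _ _) (hD _ _ _)) (lt_min (hD _ _ _) (hD _ _ _))), ?_⟩
    rintro s k r (rfl | rfl) (rfl | rfl) (rfl | rfl)
    · exact (min_le_left _ _).trans ((min_le_left _ _).trans (min_le_left _ _))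
    · exact (min_le_left _ _).trans ((min_le_left _ _).trans (min_le_right _ _))
    · exact (min_le_left _ _).trans ((min_le_right _ _).trans (min_le_left _ _))
    · exact (min_le_left _ _).trans ((min_le_right _ _).trans (min_le_right _ _))
    · exact (min_le_right _ _).trans ((min_le_left _ _).trans (min_le_left _ _))
    · exact (min_le_right _ _).trans ((min_le_left _ _).trans (min_le_right _ _))
    · exact (min_le_right _ _).trans ((min_le_right _ _).trans (min_le_left _ _))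
    · exact (min_le_right _ _).trans ((min_le_right _ _).trans (min_le_right _ _))
  obtain ⟨s₀, hs₀, hsh⟩ := shift (C := 1) (y := y) zero_le_one hδ
  obtain ⟨X₃, hX₃⟩ := eventually_atTop.1 (LL_top.eventually (eventually_ge_atTop (s₀ ^ 2)))
  refine ⟨δ / 4, 100 + X₃ + 8 * (Y 1 1 1 + Y 1 1 3 + Y 1 2 1 + Y 1 2 3 + (Y (-1) 1 1 + Y (-1) 1 3 +
    Y (-1) 2 1 + Y (-1) 2 3)), by positivity, fun X hX T hT P' hP' s k r e hs hk hr he he' => ?_⟩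
  have h2 : Y s k r ≤ X / e := by
    rw [Nat.le_div_iff_mul_le (by omega)]
    have h3 : Y s k r * e ≤ Y s k r * 8 := Nat.mul_le_mul_left _ he'
    rcases hs with rfl | rfl <;> rcases hk with rfl | rfl <;> rcases hr with rfl | rfl <;> omega
  have hJ : 3 ≤ X / e := by
    rw [Nat.le_div_iff_mul_le (by omega)]
    omega
  have hJX : X / e ≤ X := Nat.div_le_self X e
  have hq1 : X ≤ (X / e) ^ 2 := by
    have h3 : X < (X / e + 1) * e := Nat.lt_mul_of_div_lt (Nat.lt_succ_self _) (by omega)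
    have h4 : X < (X / e + 1) * 8 := lt_of_lt_of_le h3 (Nat.mul_le_mul_left _ he')
    have h5 : 12 ≤ X / e := by
      rw [Nat.le_div_iff_mul_le (by omega)]
      omega
    nlinarith
  have hq2 : X / e ≤ X ^ 2 := by nlinarith
  have hcl := LL_close (J := X / e) (Y := X) hq1 hq2 (by omega) hJ
  have hL : s₀ ^ 2 ≤ LL X := hX₃ X (by omega)
  have hL0 : 0 ≤ LL X := le_trans (by positivity) hL
  have hJL0 : 0 ≤ LL (X / e) := by
    have h3 : (3 : ℝ) ≤ (X / e : ℕ) := by exact_mod_cast hJ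
    unfold LL
    apply Real.log_nonneg
    rw [Real.le_log_iff_exp_le (by linarith)]
    have := Real.exp_one_lt_d9
    linarith
  have h3 := (hsh (√(LL X)) (√(LL (X / e))) T (Real.le_sqrt_of_sq_le hL) (Real.sqrt_nonneg _) (by
    rw [Real.sq_sqrt hL0, Real.sq_sqrt hJL0]
    exact hcl) (by
    rw [Real.sq_sqrt hL0]
    exact hT)).2
  rw [Real.sq_sqrt hJL0] at h3
  refine (hY s k r hs hk hr _ h2 T (h3.trans (mul_le_mul_of_nonneg_right (hδ' s k r hs hk hr)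
    (Real.sqrt_nonneg _))) P' hP').trans ?_
  refine mul_le_mul_of_nonneg_left ?_ hε.le
  exact_mod_cast hJX

/-- Erdős–Kac for the fundamental discriminants -/
theorem ek_NF {m : ℕ} (h136 : 136 ∣ m) (hm : 0 < m) {P : ℤ → Prop} (hP : Lc m P)
    (y ε : ℝ) (hε : 0 < ε) :
    ∃ (δ : ℝ) (X₀ : ℕ), 0 < δ ∧ ∀ X : ℕ, X₀ ≤ X → ∀ T : ℝ,
      |T - (LL X + y * √(LL X))| ≤ δ * √(LL X) → ∀ P' : ℤ → Prop,
      (∀ d, P' d ↔ (P d ∧ ((opf d).card : ℝ) ≤ T)) →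
      |(NF P' X : ℝ) - Phi y * NF P X| ≤ ε * X := by
  obtain ⟨δ, X₀, hδ, h⟩ := ek_all h136 hm hP y (ε / 8) (by positivity)
  refine ⟨δ, X₀, hδ, fun X hX T hT P' hP' => ?_⟩
  have a := h X hX T hT P' hP'
  have e1 := a 1 1 1 1 (Or.inl rfl) (Or.inl rfl) (Or.inl rfl) le_rfl (by norm_num)
  have e2 := a 1 1 3 4 (Or.inl rfl) (Or.inl rfl) (Or.inr rfl) (by norm_num) (by norm_num)
  have e3 := a 1 2 1 8 (Or.inl rfl) (Or.inr rfl) (Or.inl rfl) (by norm_num) (by norm_num)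
  have e4 := a 1 2 3 8 (Or.inl rfl) (Or.inr rfl) (Or.inr rfl) (by norm_num) (by norm_num)
  have e5 := a (-1) 1 1 4 (Or.inr rfl) (Or.inl rfl) (Or.inl rfl) (by norm_num) (by norm_num)
  have e6 := a (-1) 1 3 1 (Or.inr rfl) (Or.inl rfl) (Or.inr rfl) le_rfl (by norm_num)
  have e7 := a (-1) 2 1 8 (Or.inr rfl) (Or.inr rfl) (Or.inl rfl) (by norm_num) (by norm_num)
  have e8 := a (-1) 2 3 8 (Or.inr rfl) (Or.inr rfl) (Or.inr rfl) (by norm_num) (by norm_num)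
  rw [Nat.div_one] at e1 e6
  rw [NF_eq, NF_eq]
  push_cast
  rw [abs_le] at e1 e2 e3 e4 e5 e6 e7 e8 ⊢
  constructor
  · linarith [e1.1, e2.1, e3.1, e4.1, e5.1, e6.1, e7.1, e8.1]
  · linarith [e1.2, e2.2, e3.2, e4.2, e5.2, e6.2, e7.2, e8.2]

theorem NF_congr {P Q : ℤ → Prop} (h : ∀ d, P d ↔ Q d) (X : ℕ) : NF P X = NF Q X := by
  have : P = Q := funext fun d => propext (h d)
  rw [this]

/-- **the criterion and Erdős–Kac at once** -/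
theorem clt_NF {m : ℕ} (h136 : 136 ∣ m) (hm : 0 < m) {Q : ℤ → Prop} (hQ : Lc m Q)
    (y ε : ℝ) (hε : 0 < ε) :
    ∃ (δ : ℝ) (X₀ : ℕ), 0 < δ ∧ ∀ X : ℕ, X₀ ≤ X → ∀ T : ℝ,
      |T - (LL X + y * √(LL X))| ≤ δ * √(LL X) → ∀ P' : ℤ → Prop,
      (∀ d, P' d ↔ ((Rt17 d ∧ Q d) ∧ (G17 d ∧ ((opf d).card : ℝ) ≤ T))) →
      |(NF P' X : ℝ) - c2 * Phi y * NF (fun d => Rt17 d ∧ Q d) X| ≤ ε * X := by
  have hP : Lc m fun d => Rt17 d ∧ Q d := lc_and (lc_root (Dvd.dvd.trans (by norm_num) h136)) hQ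
  obtain ⟨δ, X₀, hδ, h1⟩ := ek_NF h136 hm hP y (ε / 2) (by positivity)
  obtain ⟨X₁, h2⟩ := close_NFW (hglW h136 hm hQ) (ε / 2) (by positivity)
  refine ⟨δ, X₀ + X₁, hδ, fun X hX T hT P' hP' => ?_⟩
  have a1 := h1 X (by omega) T hT (fun d => (Rt17 d ∧ Q d) ∧ ((opf d).card : ℝ) ≤ T) fun _ => Iff.rfl
  have a2 := h2 X (by omega) (fun S => (S.card : ℝ) ≤ T) (wt_card hm fun n => (n : ℝ) ≤ T)
  have e1 : NF P' X = NF (fun d => (Rt17 d ∧ Q d) ∧ (G17 d ∧ ((opf d).card : ℝ) ≤ T)) X :=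
    NF_congr hP' X
  rw [e1]
  obtain ⟨p0, p1⟩ := Pool.Agent.N916.MO.c201
  have a3 : |c2 * ((NF (fun d => (Rt17 d ∧ Q d) ∧ ((opf d).card : ℝ) ≤ T) X : ℝ) -
      Phi y * NF (fun d => Rt17 d ∧ Q d) X)| ≤ ε / 2 * X := by
    rw [abs_mul, abs_of_nonneg p0]
    calc c2 * |(NF (fun d => (Rt17 d ∧ Q d) ∧ ((opf d).card : ℝ) ≤ T) X : ℝ) -
          Phi y * NF (fun d => Rt17 d ∧ Q d) X| ≤ 1 * (ε / 2 * X) :=
          mul_le_mul p1 a1 (abs_nonneg _) zero_le_one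
      _ = ε / 2 * X := one_mul _
  rw [abs_le] at a2 a3 ⊢
  constructor
  · linarith [a2.1, a3.1]
  · linarith [a2.2, a3.2]

end Pool.Agent.H468.WM
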