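import Pool.Agent.H468.WM.Asy
import Pool.Graph.R_pool_sql_team_seeded_63374d34.N855.GF.Lim17

/-!
# The density of the level 17 criterion with a condition on the number of the prime factors
(after `N855.GF.Lc17`)
-/

set_option autoImplicit false
set_option linter.all false

open scoped Classical

namespace Pool.Agent.H468.WM

open Finset Filter
open Pool.Agent.N916.MO
open Pool.Agent.Y703.CQ (c2 nr)
open Pool.Agent.N916.AM (LAH card_eq)
open Pool.Agent.N972.P17 (Sx Sr)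
open Pool.Agent.N969.P17G (SxP)
open Pool.Agent.N919.BS (NN NS NF HG Rt17 ratio NF_eq core)
open Pool.Agent.N855.GF.Lc17 (Lc KQ mem_KQ nr_m dv_m Cu Cw Cp)

/-- the odd prime factors -/
noncomputable def opf (d : ℤ) : Finset ℕ := d.natAbs.primeFactors.erase 2

theorem opf_eq {s : ℤ} {k M : ℕ} (hs : s = 1 ∨ s = -1) (hk : k = 1 ∨ k = 2) (hM : M % 2 = 1) :
    opf (s * ((k * M : ℕ) : ℤ)) = M.primeFactors := by
  have h1 : (s * ((k * M : ℕ) : ℤ)).natAbs = k * M := by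
    rcases hs with rfl | rfl
    · rw [one_mul, Int.natAbs_natCast]
    · rw [neg_one_mul, Int.natAbs_neg, Int.natAbs_natCast]
  have h2 : 2 ∉ M.primeFactors := by
    intro h
    have := Nat.dvd_of_mem_primeFactors h
    omega
  have hM0 : M ≠ 0 := by omega
  unfold opf
  rw [h1]
  rcases hk with rfl | rfl
  · rw [one_mul, Finset.erase_eq_of_notMem h2]
  · rw [Nat.primeFactors_mul (by norm_num) hM0, Nat.Prime.primeFactors Nat.prime_two,
      Finset.erase_union_distrib, Finset.erase_eq_of_notMem h2]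
    simp

theorem fcard {α : Type} (s : Finset α) {p q : α → Prop} {ip : DecidablePred p}
    {iq : DecidablePred q} (h : ∀ x ∈ s, p x ↔ q x) : (s.filter p).card = (s.filter q).card :=
  congrArg card (filter_congr h)

/-- the count in a union of classes, uniformly in the condition -/
theorem dqW {M : ℕ} (hM : 8 ∣ M) (hM0 : 0 < M) {K : Finset ℕ} {G : Finset ℕ → Prop} {c : ℝ}
    (hc0 : 0 ≤ c) (hc1 : c ≤ 1) (hL : LAH M K G c) (hK : ∀ a ∈ K, a % 2 = 1) :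
    ∀ ε : ℝ, 0 < ε → ∃ X₀ : ℕ, ∀ X : ℕ, X₀ ≤ X → ∀ W : Finset ℕ → Prop, Wt M W →
      ∀ A B : ℕ → Prop, (∀ n, A n ↔ (G n.primeFactors ∧ W n.primeFactors)) →
      (∀ n, B n ↔ W n.primeFactors) →
      |(((Icc 1 X).filter fun n => Squarefree n ∧ n % M ∈ K ∧ A n).card : ℝ) -
        c * (((Icc 1 X).filter fun n => Squarefree n ∧ n % M ∈ K ∧ B n).card : ℝ)| ≤
          ε * X := by
  have hM2 : 2 ∣ M := Dvd.dvd.trans (by norm_num) hM
  intro ε hε
  obtain ⟨X₀, hX₀⟩ := t_DQ hM hM0 hc0 hc1 hL ε hε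
  refine ⟨X₀, fun X hX W hW A B hA hB => ?_⟩
  have h1 := hX₀ X hX W hW
  have e1 := card_eq hM2 hK X (fun S => G S ∧ W S)
  have e2 := card_eq hM2 hK X W
  have f1 : ((Icc 1 X).filter fun n => Squarefree n ∧ n % M ∈ K ∧ A n).card =
      ((Pool.Agent.N916.AM.SS M K X).filter fun S => G S ∧ W S).card := by
    refine ((fcard _ fun n _ => ?_).trans e1).trans (fcard _ fun _ _ => Iff.rfl)
    rw [hA]
  have f2 : ((Icc 1 X).filter fun n => Squarefree n ∧ n % M ∈ K ∧ B n).card =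
      ((Pool.Agent.N916.AM.SS M K X).filter W).card := by
    refine ((fcard _ fun n _ => ?_).trans e2)
    rw [hB]
  rw [f1, f2]
  exact h1

/-- the hypothesis on the criterion `G` in the eight classes, uniformly in the condition -/
def HGW (m : ℕ) (P G : ℤ → Prop) (c : ℝ) : Prop :=
  ∀ (s : ℤ) (k r : ℕ), (s = 1 ∨ s = -1) → (k = 1 ∨ k = 2) → (r = 1 ∨ r = 3) →
    ∀ ε : ℝ, 0 < ε → ∃ Y₀ : ℕ, ∀ Y : ℕ, Y₀ ≤ Y → ∀ W : Finset ℕ → Prop, Wt m W →
      |(NN (fun d => P d ∧ (G d ∧ W (opf d))) s k r Y : ℝ) - c * NN (fun d => P d ∧ W (opf d)) s k r Y| ≤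
        ε * Y

section

variable {m : ℕ} (h136 : 136 ∣ m) (hm : 0 < m) {Q : ℤ → Prop} (hQ : Lc m Q)

include h136 hm hQ

/-! ### negative integers -/

theorem hg_neg {k r e : ℕ} {t : Bool} {r' s' : ZMod 2} (hk : k = 1 ∨ k = 2) (hr : r = 1 ∨ r = 3)
    (he : ¬ 17 ∣ e)
    (hG : ∀ M, Squarefree M → M % 4 = r → (G17 (-1 * ((k * M : ℕ) : ℤ)) ↔ C17 (e * M)))
    (hu : ∀ M, Squarefree M → M % 4 = r → ¬ 17 ∣ e * M → (Sx (e * M) ↔ Gu t r' s' M.primeFactors))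
    (hw : ∀ M, Squarefree M → M % 4 = r → 17 ∣ e * M → (Sr (e * M) ↔ Gw t r' s' M.primeFactors))
    (lu : LAH m (KQ m Q (-1) k r Cu) (Gu t r' s') c2)
    (lw : LAH m (KQ m Q (-1) k r Cw) (Gw t r' s') c2) :
    ∀ ε : ℝ, 0 < ε → ∃ Y₀ : ℕ, ∀ Y : ℕ, Y₀ ≤ Y → ∀ W : Finset ℕ → Prop, Wt m W →
      |(NN (fun d => (Rt17 d ∧ Q d) ∧ (G17 d ∧ W (opf d))) (-1) k r Y : ℝ) -
        c2 * NN (fun d => (Rt17 d ∧ Q d) ∧ W (opf d)) (-1) k r Y| ≤ ε * Y := by
  have h8 : 8 ∣ m := Dvd.dvd.trans (by norm_num) h136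
  intro ε hε
  obtain ⟨X1, h1⟩ := dqW h8 hm c201.1 c201.2 lu (Kodd hr fun a ha => (mem_filter.1 ha).2.1) (ε / 2)
    (by positivity)
  obtain ⟨X2, h2⟩ := dqW h8 hm c201.1 c201.2 lw (Kodd hr fun a ha => (mem_filter.1 ha).2.1) (ε / 2)
    (by positivity)
  refine ⟨X1 + X2, fun Y hY W hW => ?_⟩
  have b1 := h1 Y (by omega) W hW (fun n => Gu t r' s' n.primeFactors ∧ W n.primeFactors)
    (fun n => W n.primeFactors) (fun _ => Iff.rfl) (fun _ => Iff.rfl)
  have b2 := h2 Y (by omega) W hW (fun n => Gw t r' s' n.primeFactors ∧ W n.primeFactors)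
    (fun n => W n.primeFactors) (fun _ => Iff.rfl) (fun _ => Iff.rfl)
  have hCu : ∀ n, Cu (n % m) ↔ Cu n := fun n => by unfold Cu; rw [nr_m h136]
  have hCw : ∀ n, Cw (n % m) ↔ Cw n := fun n => dv_m h136 n
  have mu : ∀ {n : ℕ}, Squarefree n → (n % m ∈ KQ m Q (-1) k r Cu ↔
      n % 4 = r ∧ Cu n ∧ Q (-1 * ((k * n : ℕ) : ℤ))) := fun hn =>
    mem_KQ h136 hm hQ (Or.inr rfl) hk hr hCu hn
  have mw : ∀ {n : ℕ}, Squarefree n → (n % m ∈ KQ m Q (-1) k r Cw ↔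
      n % 4 = r ∧ Cw n ∧ Q (-1 * ((k * n : ℕ) : ℤ))) := fun hn =>
    mem_KQ h136 hm hQ (Or.inr rfl) hk hr hCw hn
  have hd : ∀ M, 17 ∣ e * M ↔ 17 ∣ M := by
    intro M
    rw [p17.dvd_mul]
    exact ⟨fun h => h.resolve_left he, Or.inr⟩
  have key : ∀ (P : ℤ → Prop) (Qu Qw : ℕ → Prop),
      (∀ M, 0 < M → Squarefree M → M % 4 = r → ¬ 17 ∣ M → (P (-1 * ((k * M : ℕ) : ℤ)) ↔ Qu M)) →
      (∀ M, 0 < M → Squarefree M → M % 4 = r → 17 ∣ M → (P (-1 * ((k * M : ℕ) : ℤ)) ↔ Qw M)) →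
      NN (fun d => (Rt17 d ∧ Q d) ∧ P d) (-1) k r Y =
        ((Icc 1 Y).filter fun n => Squarefree n ∧ n % m ∈ KQ m Q (-1) k r Cu ∧ Qu n).card +
        ((Icc 1 Y).filter fun n => Squarefree n ∧ n % m ∈ KQ m Q (-1) k r Cw ∧ Qw n).card := by
    intro P Qu Qw hQu hQw
    have hNN : NN (fun d => (Rt17 d ∧ Q d) ∧ P d) (-1) k r Y = ((Icc 1 Y).filter fun M =>
        Squarefree M ∧ M % 4 = r ∧ (Rt17 (-1 * ((k * M : ℕ) : ℤ)) ∧ Q (-1 * ((k * M : ℕ) : ℤ))) ∧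
          P (-1 * ((k * M : ℕ) : ℤ))).card := by
      unfold Pool.Agent.N919.BS.NN
      congr
    rw [hNN, ← card_union_of_disjoint]
    · congr 1
      ext n
      rw [mem_union, mem_filter, mem_filter, mem_filter, mem_Icc]
      constructor
      · rintro ⟨i1, i2, i3, ⟨i4, i6⟩, i5⟩
        rcases (rt_neg hk (by omega)).1 i4 with h | h
        · have h17 : ¬ 17 ∣ n := by
            intro h'
            rw [nr17_dvd h'] at h
            exact absurd h (by decide)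
          exact Or.inl ⟨i1, i2, (mu i2).2 ⟨i3, h, i6⟩, (hQu n (by omega) i2 i3 h17).1 i5⟩
        · exact Or.inr ⟨i1, i2, (mw i2).2 ⟨i3, h, i6⟩, (hQw n (by omega) i2 i3 h).1 i5⟩
      · rintro (⟨i1, i2, i3, i5⟩ | ⟨i1, i2, i3, i5⟩)
        · obtain ⟨i3, h, i6⟩ := (mu i2).1 i3
          have h17 : ¬ 17 ∣ n := by
            intro h'
            unfold Cu at h
            rw [nr17_dvd h'] at h
            exact absurd h (by decide)
          exact ⟨i1, i2, i3, ⟨(rt_neg hk (by omega)).2 (Or.inl h), i6⟩,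
            (hQu n (by omega) i2 i3 h17).2 i5⟩
        · obtain ⟨i3, h, i6⟩ := (mw i2).1 i3
          exact ⟨i1, i2, i3, ⟨(rt_neg hk (by omega)).2 (Or.inr h), i6⟩,
            (hQw n (by omega) i2 i3 h).2 i5⟩
    · rw [Finset.disjoint_left]
      intro n hn hn'
      have k1 := (mem_filter.1 hn).2
      have k2 := (mem_filter.1 hn').2
      have h5 : nr 17 n = 1 := ((mu k1.1).1 k1.2.1).2.1
      have h6 : 17 ∣ n := ((mw k1.1).1 k2.2.1).2.1
      rw [nr17_dvd h6] at h5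
      exact absurd h5 (by decide)
  have hop : ∀ M : ℕ, M % 4 = r → (W (opf (-1 * ((k * M : ℕ) : ℤ))) ↔ W M.primeFactors) := by
    intro M hM
    rw [opf_eq (Or.inr rfl) hk (by omega)]
  have k1 := key (fun d => G17 d ∧ W (opf d)) (fun n => Gu t r' s' n.primeFactors ∧ W n.primeFactors)
    (fun n => Gw t r' s' n.primeFactors ∧ W n.primeFactors)
    (fun M _ i1 i2 i3 => and_congr (by
      have i3' : ¬ 17 ∣ e * M := fun h => i3 ((hd M).1 h)
      rw [hG M i1 i2, ← hu M i1 i2 i3']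
      exact ⟨fun h => h.1 i3', fun h => ⟨fun _ => h, fun h' => absurd h' i3'⟩⟩) (hop M i2))
    (fun M _ i1 i2 i3 => and_congr (by
      have i3' : 17 ∣ e * M := (hd M).2 i3
      rw [hG M i1 i2, ← hw M i1 i2 i3']
      exact ⟨fun h => h.2 i3', fun h => ⟨fun h' => absurd i3' h', fun _ => h⟩⟩) (hop M i2))
  have k2 := key (fun d => W (opf d)) (fun n => W n.primeFactors) (fun n => W n.primeFactors)
    (fun M _ _ i2 _ => hop M i2) (fun M _ _ i2 _ => hop M i2)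
  have k1' := congrArg (Nat.cast : ℕ → ℝ) k1
  have k2' := congrArg (Nat.cast : ℕ → ℝ) k2
  push_cast at k1' k2'
  rw [abs_le] at b1 b2 ⊢
  rw [k1', k2']
  constructor
  · linarith [b1.1, b2.1]
  · linarith [b1.2, b2.2]

/-! ### positive integers -/

theorem hg_pos {k r e : ℕ} {t : Bool} {r' s' : ZMod 2} (hk : k = 1 ∨ k = 2) (hr : r = 1 ∨ r = 3)
    (hG : ∀ M, 0 < M → Squarefree M → M % 4 = r → ¬ 17 ∣ M → (G17 (1 * ((k * M : ℕ) : ℤ)) ↔
      Gu t r' s' M.primeFactors))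
    (lu : LAH m (KQ m Q 1 k r Cp) (Gu t r' s') c2) :
    ∀ ε : ℝ, 0 < ε → ∃ Y₀ : ℕ, ∀ Y : ℕ, Y₀ ≤ Y → ∀ W : Finset ℕ → Prop, Wt m W →
      |(NN (fun d => (Rt17 d ∧ Q d) ∧ (G17 d ∧ W (opf d))) 1 k r Y : ℝ) -
        c2 * NN (fun d => (Rt17 d ∧ Q d) ∧ W (opf d)) 1 k r Y| ≤ ε * Y := by
  have h8 : 8 ∣ m := Dvd.dvd.trans (by norm_num) h136
  intro ε hε
  obtain ⟨X1, h1⟩ := dqW h8 hm c201.1 c201.2 lu (Kodd hr fun a ha => (mem_filter.1 ha).2.1) ε hε
  refine ⟨X1, fun Y hY W hW => ?_⟩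
  have b1 := h1 Y hY W hW (fun n => Gu t r' s' n.primeFactors ∧ W n.primeFactors)
    (fun n => W n.primeFactors) (fun _ => Iff.rfl) (fun _ => Iff.rfl)
  have hCp : ∀ n, Cp (n % m) ↔ Cp n := fun n => by unfold Cp; rw [nr_m h136, dv_m h136]
  have mp : ∀ {n : ℕ}, Squarefree n → (n % m ∈ KQ m Q 1 k r Cp ↔
      n % 4 = r ∧ Cp n ∧ Q (1 * ((k * n : ℕ) : ℤ))) := fun hn =>
    mem_KQ h136 hm hQ (Or.inl rfl) hk hr hCp hn
  have key : ∀ (P : ℤ → Prop) (Qu : ℕ → Prop),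
      (∀ M, 0 < M → Squarefree M → M % 4 = r → ¬ 17 ∣ M → (P (1 * ((k * M : ℕ) : ℤ)) ↔ Qu M)) →
      NN (fun d => (Rt17 d ∧ Q d) ∧ P d) 1 k r Y =
        ((Icc 1 Y).filter fun n => Squarefree n ∧ n % m ∈ KQ m Q 1 k r Cp ∧ Qu n).card := by
    intro P Qu hQu
    have hNN : NN (fun d => (Rt17 d ∧ Q d) ∧ P d) 1 k r Y = ((Icc 1 Y).filter fun M =>
        Squarefree M ∧ M % 4 = r ∧ (Rt17 (1 * ((k * M : ℕ) : ℤ)) ∧ Q (1 * ((k * M : ℕ) : ℤ))) ∧
          P (1 * ((k * M : ℕ) : ℤ))).card := by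
      unfold Pool.Agent.N919.BS.NN
      congr
    rw [hNN]
    congr 1
    ext n
    rw [mem_filter, mem_filter, mem_Icc]
    constructor
    · rintro ⟨i1, i2, i3, ⟨i4, i7⟩, i5⟩
      have i6 := (rt_pos hk (by omega)).1 i4
      exact ⟨i1, i2, (mp i2).2 ⟨i3, i6, i7⟩, (hQu n (by omega) i2 i3 i6.2).1 i5⟩
    · rintro ⟨i1, i2, i3, i5⟩
      obtain ⟨i3, i6, i7⟩ := (mp i2).1 i3
      exact ⟨i1, i2, i3, ⟨(rt_pos hk (by omega)).2 i6, i7⟩, (hQu n (by omega) i2 i3 i6.2).2 i5⟩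
  have hop : ∀ M : ℕ, M % 4 = r → (W (opf (1 * ((k * M : ℕ) : ℤ))) ↔ W M.primeFactors) := by
    intro M hM
    rw [opf_eq (Or.inl rfl) hk (by omega)]
  have k1 := key (fun d => G17 d ∧ W (opf d)) (fun n => Gu t r' s' n.primeFactors ∧ W n.primeFactors)
    (fun M i0 i1 i2 i3 => and_congr (hG M i0 i1 i2 i3) (hop M i2))
  have k2 := key (fun d => W (opf d)) (fun n => W n.primeFactors) (fun M _ _ i2 _ => hop M i2)
  rw [k1, k2]
  exact b1

/-- the criterion with local conditions, in all classes -/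
theorem hglW : HGW m (fun d => Rt17 d ∧ Q d) G17 c2 := by
  have g0 : ∀ {r : ℕ} {s : ℤ} {k : ℕ}, r = 3 → ∀ a ∈ KQ m Q s k r Cu,
      a % 4 = (if (0 : ZMod 2) = 0 then 3 else 1) ∧ nr 17 a = 1 := by
    intro r s k hr a ha
    have := (mem_filter.1 ha).2
    rw [if_pos rfl]
    exact ⟨this.1.trans hr, this.2.1⟩
  have g1 : ∀ {r : ℕ} {s : ℤ} {k : ℕ}, r = 1 → ∀ a ∈ KQ m Q s k r Cu,
      a % 4 = (if (1 : ZMod 2) = 0 then 3 else 1) ∧ nr 17 a = 1 := by
    intro r s k hr a ha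
    have := (mem_filter.1 ha).2
    rw [if_neg (by decide)]
    exact ⟨this.1.trans hr, this.2.1⟩
  have w0 : ∀ {r : ℕ} {s : ℤ} {k : ℕ}, r = 3 → ∀ a ∈ KQ m Q s k r Cw,
      a % 4 = (if (0 : ZMod 2) = 0 then 3 else 1) ∧ 17 ∣ a := by
    intro r s k hr a ha
    have := (mem_filter.1 ha).2
    rw [if_pos rfl]
    exact ⟨this.1.trans hr, this.2.1⟩
  have w1 : ∀ {r : ℕ} {s : ℤ} {k : ℕ}, r = 1 → ∀ a ∈ KQ m Q s k r Cw,
      a % 4 = (if (1 : ZMod 2) = 0 then 3 else 1) ∧ 17 ∣ a := by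
    intro r s k hr a ha
    have := (mem_filter.1 ha).2
    rw [if_neg (by decide)]
    exact ⟨this.1.trans hr, this.2.1⟩
  have p0 : ∀ {r : ℕ} {s : ℤ} {k : ℕ}, r = 1 → ∀ a ∈ KQ m Q s k r Cp,
      a % 4 = (if (0 : ZMod 2) = 0 then 1 else 3) ∧ nr 17 a = 0 ∧ ¬ 17 ∣ a := by
    intro r s k hr a ha
    have := (mem_filter.1 ha).2
    rw [if_pos rfl]
    exact ⟨this.1.trans hr, this.2.1⟩
  have p1 : ∀ {r : ℕ} {s : ℤ} {k : ℕ}, r = 3 → ∀ a ∈ KQ m Q s k r Cp,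
      a % 4 = (if (1 : ZMod 2) = 0 then 1 else 3) ∧ nr 17 a = 0 ∧ ¬ 17 ∣ a := by
    intro r s k hr a ha
    have := (mem_filter.1 ha).2
    rw [if_neg (by decide)]
    exact ⟨this.1.trans hr, this.2.1⟩
  rintro s k r (rfl | rfl) (rfl | rfl) (rfl | rfl)
  · -- 1, 1, 1
    refine hg_pos h136 hm hQ (t := false) (r' := 0) (s' := 0) (Or.inl rfl) (Or.inl rfl) (e := 1) ?_
      (lah_p h136 hm (fun _ => rfl) (fun h => absurd h (by decide)) (p0 rfl))
    intro M h0 h1 h2 h3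
    rw [G_pos (n := M) (by omega) (by rw [Kn_odd (by omega)]; omega)]
    exact SxP_iff (parP0 h2) pf_odd (odd2 (Or.inl h2)) h3
  · -- 1, 1, 3
    refine hg_pos h136 hm hQ (t := true) (r' := 0) (s' := 1) (Or.inl rfl) (Or.inr rfl) (e := 4) ?_
      (lah_p h136 hm (fun h => absurd h (by decide)) (fun _ => Or.inr (by decide))
        (p1 rfl))
    intro M h0 h1 h2 h3
    rw [G_pos (n := 4 * M) (by omega) (by rw [Kn_ev (by omega)]; omega)]
    exact SxP_iff (parP1 h2) (pf_4 h1.ne_zero) (odd2 (Or.inr h2)) (e17 (by norm_num) h3)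
  · -- 1, 2, 1
    refine hg_pos h136 hm hQ (t := true) (r' := 1) (s' := 0) (Or.inr rfl) (Or.inl rfl) (e := 8) ?_
      (lah_p h136 hm (fun h => absurd h (by decide)) (fun _ => Or.inl (by decide))
        (p0 rfl))
    intro M h0 h1 h2 h3
    rw [G_pos (n := 8 * M) (by omega) (by rw [Kn_ev (by omega)]; omega)]
    exact SxP_iff (parP2 h2) (pf_8 h1.ne_zero) (odd2 (Or.inl h2)) (e17 (by norm_num) h3)
  · -- 1, 2, 3
    refine hg_pos h136 hm hQ (t := true) (r' := 1) (s' := 1) (Or.inr rfl) (Or.inr rfl) (e := 8) ?_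
      (lah_p h136 hm (fun h => absurd h (by decide)) (fun _ => Or.inl (by decide))
        (p1 rfl))
    intro M h0 h1 h2 h3
    rw [G_pos (n := 8 * M) (by omega) (by rw [Kn_ev (by omega)]; omega)]
    exact SxP_iff (parP3 h2) (pf_8 h1.ne_zero) (odd2 (Or.inr h2)) (e17 (by norm_num) h3)
  · -- -1, 1, 1
    refine hg_neg h136 hm hQ (t := true) (r' := 0) (s' := 1) (Or.inl rfl) (Or.inl rfl) (e := 4)
      (by norm_num) ?_ ?_ ?_
      (lah_u h136 hm (fun h => absurd h (by decide)) (fun _ => Or.inr (by decide))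
        (g1 rfl))
      (lah_w h136 hm (fun h => absurd h (by decide)) (fun _ => Or.inr (by decide))
        (w1 rfl))
    · intro M h1 h2
      exact G_neg (by have := h1.ne_zero; omega) (by rw [Kn_ev (by omega)]; omega)
    · intro M h1 h2 h3
      exact Sx_iff (par1 h2) (pf_4 h1.ne_zero) (odd2 (Or.inl h2)) h3
    · intro M h1 h2 h3
      exact Sr_iff (par1 h2) (pf_4 h1.ne_zero) (odd2 (Or.inl h2)) h3
        (mul_ne_zero (by norm_num) h1.ne_zero)
  · -- -1, 1, 3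
    refine hg_neg h136 hm hQ (t := false) (r' := 0) (s' := 0) (Or.inl rfl) (Or.inr rfl) (e := 1)
      (by norm_num) ?_ ?_ ?_
      (lah_u h136 hm (fun _ => rfl) (fun h => absurd h (by decide)) (g0 rfl))
      (lah_w h136 hm (fun _ => rfl) (fun h => absurd h (by decide)) (w0 rfl))
    · intro M h1 h2
      exact G_neg (by have := h1.ne_zero; omega) (by rw [Kn_odd (by omega)]; omega)
    · intro M h1 h2 h3
      rw [one_mul] at h3 ⊢
      exact Sx_iff (par0 h2) pf_odd (odd2 (Or.inr h2)) h3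
    · intro M h1 h2 h3
      rw [one_mul] at h3 ⊢
      exact Sr_iff (par0 h2) pf_odd (odd2 (Or.inr h2)) h3 h1.ne_zero
  · -- -1, 2, 1
    refine hg_neg h136 hm hQ (t := true) (r' := 1) (s' := 1) (Or.inr rfl) (Or.inl rfl) (e := 8)
      (by norm_num) ?_ ?_ ?_
      (lah_u h136 hm (fun h => absurd h (by decide)) (fun _ => Or.inr (by decide))
        (g1 rfl))
      (lah_w h136 hm (fun h => absurd h (by decide)) (fun _ => Or.inr (by decide))
        (w1 rfl))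
    · intro M h1 h2
      exact G_neg (by have := h1.ne_zero; omega) (by rw [Kn_ev (by omega)]; omega)
    · intro M h1 h2 h3
      exact Sx_iff (par2 h2) (pf_8 h1.ne_zero) (odd2 (Or.inl h2)) h3
    · intro M h1 h2 h3
      exact Sr_iff (par2 h2) (pf_8 h1.ne_zero) (odd2 (Or.inl h2)) h3
        (mul_ne_zero (by norm_num) h1.ne_zero)
  · -- -1, 2, 3
    refine hg_neg h136 hm hQ (t := true) (r' := 1) (s' := 0) (Or.inr rfl) (Or.inr rfl) (e := 8)
      (by norm_num) ?_ ?_ ?_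
      (lah_u h136 hm (fun h => absurd h (by decide)) (fun _ => Or.inl (by decide))
        (g0 rfl))
      (lah_w h136 hm (fun h => absurd h (by decide)) (fun _ => Or.inl (by decide))
        (w0 rfl))
    · intro M h1 h2
      exact G_neg (by have := h1.ne_zero; omega) (by rw [Kn_ev (by omega)]; omega)
    · intro M h1 h2 h3
      exact Sx_iff (par3 h2) (pf_8 h1.ne_zero) (odd2 (Or.inr h2)) h3
    · intro M h1 h2 h3
      exact Sr_iff (par3 h2) (pf_8 h1.ne_zero) (odd2 (Or.inr h2)) h3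
        (mul_ne_zero (by norm_num) h1.ne_zero)

end

end Pool.Agent.H468.WM
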