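import Pool.Graph.R_pool_sql_team_seeded_63374d34.N916.AM.Key

/-!
# The abstract machine with a condition on the number of the primes (after `N916.AM.Key`)

`W` is a condition on the numbers of the primes in the residue classes modulo `M`; the estimates are
uniform in `W`.
-/

set_option autoImplicit false
set_option linter.all false

open scoped Classical

namespace Pool.Agent.H468.WM

open Finset
open Pool.Agent.Y703.CX (sm la jj XX)
open Pool.Agent.N916.GB (Po SA ps HB S_EQ S_BIL)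
open Pool.Agent.Y703.CQ (nr sg)
open Pool.Agent.N916.AM Pool.Agent.N916.AM.KEY

/-- the number of the primes in the class of `a` -/
noncomputable def cnt (M : ℕ) (S : Finset ℕ) (a : ℕ) : ℕ := (S.filter fun p => p % M = a).card

/-- `W` depends only on the numbers of the primes in the classes modulo `M` -/
def Wt (M : ℕ) (W : Finset ℕ → Prop) : Prop := ∀ S S' : Finset ℕ, cnt M S = cnt M S' → (W S ↔ W S')

theorem cnt_split (M z : ℕ) (S : Finset ℕ) (a : ℕ) :
    cnt M S a = cnt M (sm z S) a + cnt M (la z S) a := by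
  unfold cnt
  rw [← card_union_of_disjoint]
  · congr 1
    ext p
    simp only [mem_filter, mem_union, sm, la]
    constructor
    · rintro ⟨h1, h2⟩
      by_cases h3 : p ≤ z
      · exact Or.inl ⟨⟨h1, h3⟩, h2⟩
      · exact Or.inr ⟨⟨h1, by simpa using h3⟩, h2⟩
    · rintro (⟨⟨h1, -⟩, h2⟩ | ⟨⟨h1, -⟩, h2⟩) <;> exact ⟨h1, h2⟩
  · rw [Finset.disjoint_left]
    intro p h1 h2
    have h3 := (mem_filter.1 (mem_filter.1 h1).1).2
    have h4 := (mem_filter.1 (mem_filter.1 h2).1).2
    exact absurd h3 h4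

theorem cnt_la {M z H : ℕ} {S : Finset ℕ} (h : Set.InjOn (jj H) (la z S : Set ℕ)) (a : ℕ) :
    cnt M (la z S) a = (((la z S).image (ph M H)).filter fun e => e.2 = a).card := by
  unfold cnt
  rw [Finset.filter_image, Finset.card_image_of_injOn]
  · rfl
  · intro x hx y hy hxy
    rw [mem_coe, mem_filter] at hx hy
    exact inj_ph h (mem_coe.2 hx.1) (mem_coe.2 hy.1) hxy

/-- the counts depend only on the key -/
theorem cnt_key {M : ℕ} {K : Finset ℕ} {X z H k V : ℕ} {S S' : Finset ℕ}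
    (hS : S ∈ RR M K X z H k V) (hS' : S' ∈ RR M K X z H k V) (h : ky M z H S = ky M z H S') :
    cnt M S = cnt M S' := by
  funext a
  obtain ⟨-, f2, -⟩ := rr_facts hS
  obtain ⟨-, f2', -⟩ := rr_facts hS'
  unfold ky at h
  rw [Prod.mk.injEq] at h
  rw [cnt_split M z S a, cnt_split M z S' a, cnt_la f2, cnt_la f2', h.1, h.2]

/-- **The sum over the boxes, with a condition.** -/
theorem key (hBIL : S_BIL) (hEQ : S_EQ) {M : ℕ} (hM : 8 ∣ M) (hM0 : 0 < M) {K : Finset ℕ}
    {G : Finset ℕ → Prop} {c : ℝ} (hL : LAH M K G c) : ∀ ε : ℝ, 0 < ε →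
  ∃ (V₀ : ℕ) (C : ℝ), 1 ≤ V₀ ∧ 1 ≤ C ∧
  ∀ (X z H k N : ℕ) (κ : ℝ), 1 ≤ X → 1 ≤ H → 1 ≤ z → M ≤ z → 0 ≤ κ → C ≤ κ ^ 12 * z →
  (H : ℝ) * Real.log X < N → ∀ W : Finset ℕ → Prop, Wt M W →
  |(((RR M K X z H k V₀).filter fun S => Nd M (sm z S) (la z S) ∧ (G S ∧ W S)).card : ℝ) -
      c * (((RR M K X z H k V₀).filter fun S => Nd M (sm z S) (la z S) ∧ W S).card : ℝ)| ≤
    ε * ((RR M K X z H k V₀).card : ℝ) +
    (M * N + M : ℝ) ^ k * (3 ^ (9 * k ^ 2 + 9) * κ) * (X * (1 + Real.log X)) := by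
  intro ε hε
  obtain ⟨C, hC1, hB⟩ := hBIL
  obtain ⟨V', hV'⟩ := hL ε hε
  obtain ⟨V, hV1, hVV⟩ : ∃ V : ℕ, 1 ≤ V ∧ V' ≤ V := ⟨V' + 1, by omega, by omega⟩
  have hV : BoxS M K G c ε V := by
    apply box hEQ hM
    intro ι _ _ S₀ p h1 h2 h3 h4 h5 h6
    refine hV' ι S₀ p h1 h2 h3 h4 h5 fun a ha hac => le_trans ?_ (h6 a ha hac)
    exact Nat.mul_le_mul_right _ hVV
  refine ⟨V, C, hV1, hC1, ?_⟩
  intro X z H k N κ hX hH hz hMz hκ hκz hN W hW
  set T := (RR M K X z H k V).image (ky M z H) with hT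
  set B : ℝ := 3 ^ (9 * k ^ 2 + 9) * κ with hBd
  have hB0 : 0 ≤ B := by positivity
  have hfib : ∀ (P : Finset ℕ → Prop) [DecidablePred P],
      (((RR M K X z H k V).filter fun S => P S).card : ℝ) =
      ∑ e ∈ T, (((RR M K X z H k V).filter fun S => ky M z H S = e ∧ P S).card : ℝ) := by
    intro P _
    rw [Finset.card_eq_sum_card_fiberwise (f := ky M z H) (t := T) (by
      intro S hS
      rw [Finset.mem_coe, Finset.mem_filter] at hS
      exact Finset.mem_coe.2 (Finset.mem_image_of_mem _ hS.1))]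
    push_cast
    refine Finset.sum_congr rfl fun e _ => ?_
    congr 2
    ext S
    simp only [Finset.mem_filter]
    tauto
  have hKP : ∀ e ∈ T, KP M K X z H k V e.1 e.2 := by
    intro e he
    rw [hT, Finset.mem_image] at he
    obtain ⟨S, hS, rfl⟩ := he
    obtain ⟨f1, f2, f3⟩ := rr_facts hS
    exact (rr_iff hH f1 (inj_ph f2)).1 hS
  have hf1 := hfib fun S => Nd M (sm z S) (la z S) ∧ (G S ∧ W S)
  have hf2 := hfib fun S => Nd M (sm z S) (la z S) ∧ W S
  have hf3 := hfib fun _ => True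
  simp only [and_true, Finset.filter_true] at hf3
  rw [hf1, hf2, hf3, Finset.mul_sum, ← Finset.sum_sub_distrib]
  refine (Finset.abs_sum_le_sum_abs _ _).trans ?_
  have h3 : ∀ e ∈ T, |(((RR M K X z H k V).filter fun S => ky M z H S = e ∧
        (Nd M (sm z S) (la z S) ∧ (G S ∧ W S))).card : ℝ) -
      c * (((RR M K X z H k V).filter fun S => ky M z H S = e ∧
        (Nd M (sm z S) (la z S) ∧ W S)).card : ℝ)| ≤
      ε * (((RR M K X z H k V).filter fun S => ky M z H S = e).card : ℝ) +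
      B * (X / ((∏ p ∈ e.1, p : ℕ) : ℝ)) := by
    intro e he
    obtain ⟨S₁, hS₁, he₁⟩ := mem_image.1 he
    by_cases hw : W S₁
    · have hall : ∀ S ∈ RR M K X z H k V, ky M z H S = e → W S := fun S hS hk =>
        (hW S₁ S (cnt_key hS₁ hS (he₁.trans hk.symm))).1 hw
      have e1 : ((RR M K X z H k V).filter fun S => ky M z H S = e ∧
          (Nd M (sm z S) (la z S) ∧ (G S ∧ W S))) = ((RR M K X z H k V).filter fun S =>
          ky M z H S = e ∧ (Nd M (sm z S) (la z S) ∧ G S)) := by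
        refine Finset.filter_congr fun S hS => and_congr_right fun hk => and_congr_right fun _ => ?_
        exact ⟨fun h => h.1, fun h => ⟨h, hall S hS hk⟩⟩
      have e2 : ((RR M K X z H k V).filter fun S => ky M z H S = e ∧
          (Nd M (sm z S) (la z S) ∧ W S)) = ((RR M K X z H k V).filter fun S =>
          ky M z H S = e ∧ Nd M (sm z S) (la z S)) := by
        refine Finset.filter_congr fun S hS => and_congr_right fun hk => ?_
        exact ⟨fun h => h.1, fun h => ⟨h, hall S hS hk⟩⟩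
      rw [e1, e2]
      obtain ⟨S₀, J⟩ := e
      have hk' := hKP _ he
      exact per_key hε.le hV hH hM0 hMz hκ hk' (hb_box hB hH hz hκ hκz)
    · have hall : ∀ S ∈ RR M K X z H k V, ky M z H S = e → ¬ W S := fun S hS hk h =>
        hw ((hW S₁ S (cnt_key hS₁ hS (he₁.trans hk.symm))).2 h)
      have e1 : ((RR M K X z H k V).filter fun S => ky M z H S = e ∧
          (Nd M (sm z S) (la z S) ∧ (G S ∧ W S))) = ∅ :=
        Finset.filter_eq_empty_iff.2 fun S hS h => hall S hS h.1 h.2.2.2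
      have e2 : ((RR M K X z H k V).filter fun S => ky M z H S = e ∧
          (Nd M (sm z S) (la z S) ∧ W S)) = ∅ :=
        Finset.filter_eq_empty_iff.2 fun S hS h => hall S hS h.1 h.2.2
      rw [e1, e2, card_empty, Nat.cast_zero, mul_zero, sub_zero, abs_zero]
      exact add_nonneg (mul_nonneg hε.le (Nat.cast_nonneg _))
        (mul_nonneg hB0 (div_nonneg (Nat.cast_nonneg _) (Nat.cast_nonneg _)))
  refine (Finset.sum_le_sum h3).trans ?_
  rw [Finset.sum_add_distrib, ← Finset.mul_sum]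
  refine add_le_add le_rfl ?_
  have hsub : T ⊆ (TP X) ×ˢ ((range N ×ˢ range M).powerset.filter fun J => J.card ≤ k) := by
    intro e he
    have hk' := hKP e he
    rw [hT, Finset.mem_image] at he
    obtain ⟨S, hS, rfl⟩ := he
    obtain ⟨f1, f2, f3⟩ := rr_facts hS
    rw [Finset.mem_product, Finset.mem_filter, Finset.mem_powerset]
    refine ⟨mem_TP (fun q hq => cl_prime (hk'.cl q hq)) ?_, ?_, ?_⟩
    · refine le_trans ?_ f3
      exact Nat.le_of_dvd (Finset.prod_pos fun p hp => (cl_prime (f1 p hp)).pos)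
        (Finset.prod_dvd_prod_of_subset _ _ _ (Finset.filter_subset _ _))
    · intro e he
      unfold ky at he
      rw [Finset.mem_image] at he
      obtain ⟨q, hq, rfl⟩ := he
      have hqS := (Finset.mem_filter.1 hq).1
      have hq0 := (cl_prime (f1 q hqS)).pos
      have hqX : q ≤ X := by
        refine le_trans ?_ f3
        exact Nat.le_of_dvd (Finset.prod_pos fun p hp => (cl_prime (f1 p hp)).pos)
          (Finset.dvd_prod_of_mem _ hqS)
      unfold ph
      rw [Finset.mem_product, Finset.mem_range, Finset.mem_range]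
      refine ⟨?_, Nat.mod_lt _ hM0⟩
      have h3 : ((jj H q : ℕ) : ℝ) < N := by
        refine lt_of_le_of_lt (Nat.floor_le (mul_nonneg (Nat.cast_nonneg _)
          (Real.log_nonneg (by exact_mod_cast hq0)))) ?_
        refine lt_of_le_of_lt ?_ hN
        refine mul_le_mul_of_nonneg_left ?_ (Nat.cast_nonneg _)
        exact Real.log_le_log (by exact_mod_cast hq0) (by exact_mod_cast hqX)
      exact_mod_cast h3
    · have := hk'.card
      omega
  refine (Finset.sum_le_sum_of_subset_of_nonneg hsub fun _ _ _ => by positivity).trans ?_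
  rw [Finset.sum_product]
  simp only [Finset.sum_const, nsmul_eq_mul]
  rw [← Finset.mul_sum]
  have h4 : ((((range N ×ˢ range M).powerset.filter fun J => J.card ≤ k).card : ℕ) : ℝ) ≤
      (M * N + M : ℝ) ^ k := by
    have h5 := card_sub (range N ×ˢ range M) k
    rw [Finset.card_product, Finset.card_range, Finset.card_range] at h5
    calc ((((range N ×ˢ range M).powerset.filter fun J => J.card ≤ k).card : ℕ) : ℝ) ≤
          (((N * M + 1) ^ k : ℕ) : ℝ) := by exact_mod_cast h5
      _ = (N * M + 1 : ℝ) ^ k := by push_cast; ring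
      _ ≤ _ := by
        apply pow_le_pow_left₀ (by positivity)
        have h1 : (1 : ℝ) ≤ M := by exact_mod_cast hM0
        linarith
  have h5 : ∑ S ∈ TP X, B * (X / ((∏ p ∈ S, p : ℕ) : ℝ)) ≤ B * (X * (1 + Real.log X)) := by
    have h6 : ∀ S ∈ TP X, B * ((X : ℝ) / ((∏ p ∈ S, p : ℕ) : ℝ)) =
        B * X * (1 / ((∏ p ∈ S, p : ℕ) : ℝ)) := by
      intro S _
      ring
    rw [Finset.sum_congr rfl h6, ← Finset.mul_sum]
    have h7 := mul_le_mul_of_nonneg_left (harm_TP X) (mul_nonneg hB0 (Nat.cast_nonneg X))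
    refine h7.trans (le_of_eq ?_)
    ring
  have h6 : 0 ≤ ∑ S ∈ TP X, B * ((X : ℝ) / ((∏ p ∈ S, p : ℕ) : ℝ)) :=
    Finset.sum_nonneg fun _ _ => by positivity
  rw [mul_assoc]
  gcongr

end Pool.Agent.H468.WM
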